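import Pool.Agent.Helper39_MT.Gal3

/-! MT100, module GAL: denominators and size of the `Pₖ`. -/

set_option autoImplicit false
set_option linter.unusedSectionVars false

namespace Pool.Agent.Helper39_MT

open Matrix Polynomial Pool.Agent.MT100
open Finset.HasAntidiagonal (antidiagonal mem_antidiagonal)

/-- degrees -/
theorem Pk_deg {s d : Type*} [Fintype s] [Fintype d] (q : ℚ[X])
    (B : Matrix d d ℚ[X]) (N : Matrix s s ℚ) (P : Matrix s d ℚ[X]) (c M : ℕ)
    (h1 : (X * q).natDegree ≤ c) (h2 : ∀ i j, (B i j).natDegree ≤ c)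
    (h3 : ∀ i j, (P i j).natDegree ≤ M) : ∀ k i j, (Pk q B N P k i j).natDegree ≤ M + c * k := by
  have hq : q.natDegree ≤ c := by
    by_cases h0 : q = 0
    · rw [h0]; simp
    · rw [Polynomial.natDegree_X_mul h0] at h1
      omega
  intro k
  induction k with
  | zero => intro i j; simpa [Pk] using h3 i j
  | succ k ih =>
    intro i j
    rw [Pk, Matrix.smul_apply]
    refine (Polynomial.natDegree_smul_le _ _).trans ?_
    have e : M + c * (k + 1) = c + (M + c * k) := by ring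
    rw [e]
    rw [Matrix.sub_apply, Matrix.sub_apply, Matrix.add_apply]
    have t1 : (((X * q) • (Pk q B N P k).map derivative) i j).natDegree ≤ c + (M + c * k) := by
      rw [Matrix.smul_apply, smul_eq_mul, Matrix.map_apply]
      refine Polynomial.natDegree_mul_le.trans (add_le_add h1 ?_)
      exact (Polynomial.natDegree_derivative_le _).trans ((Nat.sub_le _ _).trans (ih i j))
    have t2 : ((Pk q B N P k * B) i j).natDegree ≤ c + (M + c * k) := by
      rw [Matrix.mul_apply]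
      apply Polynomial.natDegree_sum_le_of_forall_le
      intro l _
      rw [add_comm]
      exact Polynomial.natDegree_mul_le.trans (add_le_add (ih i l) (h2 l j))
    have t3 : ((q • (N.map C * Pk q B N P k)) i j).natDegree ≤ c + (M + c * k) := by
      rw [Matrix.smul_apply, smul_eq_mul]
      refine Polynomial.natDegree_mul_le.trans (add_le_add hq ?_)
      rw [Matrix.mul_apply]
      apply Polynomial.natDegree_sum_le_of_forall_le
      intro l _
      rw [Matrix.map_apply]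
      exact (Polynomial.natDegree_C_mul_le _ _).trans (ih l j)
    have t4 : (((k : ℚ) • (derivative (X * q) • Pk q B N P k)) i j).natDegree ≤ c + (M + c * k) := by
      rw [Matrix.smul_apply]
      refine (Polynomial.natDegree_smul_le _ _).trans ?_
      rw [Matrix.smul_apply, smul_eq_mul]
      refine Polynomial.natDegree_mul_le.trans (add_le_add ?_ (ih i j))
      exact (Polynomial.natDegree_derivative_le _).trans ((Nat.sub_le _ _).trans h1)
    exact (Polynomial.natDegree_sub_le_of_le (Polynomial.natDegree_sub_le_of_le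
      (Polynomial.natDegree_add_le_of_degree_le t1 t2) t3) t4).trans (by simp)

section main
variable {d : Type*} [Fintype d] [DecidableEq d] {H K : Matrix d d (PowerSeries ℚ)} {N : Matrix d d ℤ}
  {q : ℤ[X]} {B : Matrix d d ℤ[X]}

/-- the sequence for a constant elementary matrix -/
noncomputable abbrev PE (N : Matrix d d ℤ) (q : ℤ[X]) (B : Matrix d d ℤ[X]) (i j : d) :
    ℕ → Matrix d d ℚ[X] :=
  Pk (zq q) (B.map zq) (N.map (fun x => (x : ℚ))) (Matrix.single i j 1)

theorem msz_single (n : ℕ) (i j : d) : msz n (pm (Matrix.single i j (1 : ℚ[X]))) = 1 := by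
  unfold msz
  rw [Finset.sum_eq_single i, Finset.sum_eq_single j]
  · simp only [pm, Matrix.map_apply, Matrix.single_apply_same, Polynomial.coe_one, sz_one]
  · intro b _ hb
    simp only [pm, Matrix.map_apply]
    rw [Matrix.single_apply, if_neg (by tauto)]
    simp [sz_zero]
  · simp
  · intro b _ hb
    apply Finset.sum_eq_zero
    intro v _
    simp only [pm, Matrix.map_apply]
    rw [Matrix.single_apply, if_neg (by tauto)]
    simp [sz_zero]
  · simp

theorem mI_single (n : ℕ) (i j : d) : mI n 1 (pm (Matrix.single i j (1 : ℚ[X]))) := by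
  intro u v
  simp only [pm, Matrix.map_apply]
  by_cases h : i = u ∧ j = v
  · obtain ⟨rfl, rfl⟩ := h
    rw [Matrix.single_apply_same, Polynomial.coe_one]
    exact isI_one n
  · rw [Matrix.single_apply, if_neg h]
    simpa using isI_zero n 1

theorem weak (hG : GSys H K N q B) : ∃ C : ℕ, 0 < C ∧ ∀ T : ℕ, ∃ D : ℕ, 0 < D ∧ D ≤ C ^ (T + 1) ∧
    ∀ i j, ∀ k ≤ T, (∀ u v, (D : ℚ) • PE N q B i j k u v ∈ Polynomial.lifts (Int.castRingHom ℚ)) ∧
      (∑ u, ∑ v, nrm (PE N q B i j k u v)) ≤ (C : ℚ) ^ (T + 1) := by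
  obtain ⟨CH, hCH0, hCH⟩ := gm hG.gH
  obtain ⟨CK, hCK0, hCK⟩ := gm hG.gK
  obtain ⟨CL, hCL0, hCL⟩ := lcm_bound
  obtain ⟨ν, hν⟩ := adN_nil hG.nil
  obtain ⟨c, hc1, hc2⟩ : ∃ c : ℕ, (X * zq q).natDegree ≤ c ∧ ∀ i j, ((B.map zq) i j).natDegree ≤ c := by
    refine ⟨(X * zq q).natDegree + ∑ i, ∑ j, ((B.map zq) i j).natDegree, by omega, fun i j => ?_⟩
    have h1 : ((B.map zq) i j).natDegree ≤ ∑ j, ((B.map zq) i j).natDegree :=
      Finset.single_le_sum (f := fun j => ((B.map zq) i j).natDegree) (fun _ _ => Nat.zero_le _)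
        (Finset.mem_univ j)
    have h2 : ∑ j, ((B.map zq) i j).natDegree ≤ ∑ i, ∑ j, ((B.map zq) i j).natDegree :=
      Finset.single_le_sum (f := fun i => ∑ j, ((B.map zq) i j).natDegree) (fun _ _ => Nat.zero_le _)
        (Finset.mem_univ i)
    omega
  set s : ℚ := 2 * (∑ i, ∑ j, |((N i j : ℤ) : ℚ)|) + 1 with hs
  have hs1 : 1 ≤ s := by
    have : 0 ≤ ∑ i, ∑ j, |((N i j : ℤ) : ℚ)| :=
      Finset.sum_nonneg fun _ _ => Finset.sum_nonneg fun _ _ => abs_nonneg _
    rw [hs]; linarith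
  set W : ℚ := (1 + nrm (zq q)) * (1 + nrm (X * zq q)) * s * 2 ^ (c + 1) with hW
  have hnq := nrm_nonneg (zq q)
  have hnR := nrm_nonneg (X * zq q)
  obtain ⟨w, hw⟩ := exists_nat_ge (2 * W)
  have hW0 : 0 ≤ W := by rw [hW]; positivity
  have hw0 : (1 : ℚ) ≤ (w : ℚ) + 1 := by linarith
  refine ⟨(w + 1) * CH ^ (c + 2) * CL ^ ν * CK ^ (c + 1), by positivity, fun T => ?_⟩
  obtain ⟨hH1, DH, hDH0, hDH1, hDH2⟩ := hCH (c * T + T)
  obtain ⟨hK1, DK, hDK0, hDK1, hDK2⟩ := hCK (c * T)
  have hL0 : Nat.lcmUpto T ≠ 0 := Nat.lcmUpto_ne_zero T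
  have hode : (((X * zq q : ℚ[X]) : PowerSeries ℚ)) • H.map dv =
      pm (B.map zq) * H - ((zq q : ℚ[X]) : PowerSeries ℚ) • (H * cm N) := by
    have h1 := hG.ode
    rw [Polynomial.coe_mul, Polynomial.coe_X, mul_comm]
    exact h1
  refine ⟨DH * (Nat.lcmUpto T) ^ ν * DK, by positivity, ?_, ?_⟩
  · have e1 : (w + 1) ^ (T + 1) ≥ 1 := Nat.one_le_pow _ _ (by omega)
    have e2 : DH ≤ (CH ^ (c + 2)) ^ (T + 1) := by
      refine hDH1.trans ?_
      rw [← pow_mul]
      apply Nat.pow_le_pow_right hCH0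
      nlinarith
    have e3 : (Nat.lcmUpto T) ^ ν ≤ (CL ^ ν) ^ (T + 1) := by
      refine (Nat.pow_le_pow_left (hCL T) ν).trans ?_
      rw [← pow_mul, ← pow_mul]
      apply Nat.pow_le_pow_right hCL0
      nlinarith
    have e4 : DK ≤ (CK ^ (c + 1)) ^ (T + 1) := by
      refine hDK1.trans ?_
      rw [← pow_mul]
      apply Nat.pow_le_pow_right hCK0
      nlinarith
    rw [mul_pow, mul_pow, mul_pow]
    calc DH * (Nat.lcmUpto T) ^ ν * DK
        ≤ (CH ^ (c + 2)) ^ (T + 1) * (CL ^ ν) ^ (T + 1) * (CK ^ (c + 1)) ^ (T + 1) :=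
          Nat.mul_le_mul (Nat.mul_le_mul e2 e3) e4
      _ = 1 * (CH ^ (c + 2)) ^ (T + 1) * (CL ^ ν) ^ (T + 1) * (CK ^ (c + 1)) ^ (T + 1) := by ring
      _ ≤ _ := by gcongr
  intro i j k hk
  have hdeg : ∀ u v, (PE N q B i j k u v).natDegree ≤ c * T := by
    intro u v
    refine (Pk_deg _ _ _ _ c 0 hc1 hc2 ?_ k u v).trans ?_
    · intro a b
      by_cases h : i = a ∧ j = b
      · obtain ⟨rfl, rfl⟩ := h
        rw [Matrix.single_apply_same]; simp
      · rw [Matrix.single_apply, if_neg h]; simp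
    · rw [zero_add]
      exact Nat.mul_le_mul_left c hk
  have hmain := Pk_mul (zq q) (B.map zq) N H (Matrix.single i j 1) hode k
  set F := pm (Matrix.single i j (1 : ℚ[X])) * H with hF
  have hmain2 : pm (PE N q B i j k) = (∑ x ∈ antidiagonal k,
      (((zq q : ℚ[X]) : PowerSeries ℚ) ^ x.1 * ((X * zq q : ℚ[X]) : PowerSeries ℚ) ^ x.2) •
        hsM x.2 (Gq N F x.1)) * K := by
    rw [← hmain, Matrix.mul_assoc, hG.inv, Matrix.mul_one]
  have hFI : mI (c * T + T) DH F := by
    have := mI_mul (mI_single (c * T + T) i j) hDH2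
    rwa [one_mul] at this
  have hX1 : isI (c * T) 1 ((X * zq q : ℚ[X]) : PowerSeries ℚ) := by
    have h1 := isI_zp (c * T) (X * q)
    have h2 : zp (X * q) = ((X * zq q : ℚ[X]) : PowerSeries ℚ) := by
      unfold zp zq
      rw [Polynomial.map_mul, Polynomial.map_X]
    rwa [h2] at h1
  have hI : mI (c * T) ((DH : ℚ) * (Nat.lcmUpto T : ℚ) ^ ν * DK) (pm (PE N q B i j k)) := by
    rw [hmain2]
    apply mI_mul _ hDK2
    apply mI_sum
    rintro ⟨a, b⟩ hab
    rw [mem_antidiagonal] at hab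
    simp only at hab ⊢
    apply mI_smul
    · exact isI_mul_left (isI_pow (isI_zp (c * T) q) _) (isI_pow hX1 _)
    · apply mI_hs
      apply mI_mono (show c * T + b ≤ c * T + T by omega)
      exact mI_Gq N ν hν _ T hL0 (fun j h1 h2 => dvd_lcmUpto h1 h2) hFI (by omega)
  constructor
  · intro u v
    rw [Polynomial.lifts_iff_coeff_lifts]
    intro e
    rw [Polynomial.coeff_smul, smul_eq_mul]
    by_cases he : e ≤ c * T
    · obtain ⟨z, hz⟩ := hI u v e he
      refine ⟨z, ?_⟩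
      rw [pm, Matrix.map_apply, Polynomial.coeff_coe] at hz
      rw [eq_intCast, ← hz]
      push_cast
      rfl
    · rw [Polynomial.coeff_eq_zero_of_natDegree_lt (lt_of_le_of_lt (hdeg u v) (by omega))]
      exact ⟨0, by simp⟩
  · have e0 : ∑ u, ∑ v, nrm (PE N q B i j k u v) = msz (c * T) (pm (PE N q B i j k)) := by
      unfold msz
      apply Finset.sum_congr rfl
      intro u _
      apply Finset.sum_congr rfl
      intro v _
      rw [pm, Matrix.map_apply, sz_coe _ _ (hdeg u v)]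
    rw [e0, hmain2]
    refine (msz_mul _ _ _).trans ?_
    have hCHq : (0 : ℚ) < CH := by exact_mod_cast hCH0
    have hCH1 : (1 : ℚ) ≤ CH := by exact_mod_cast hCH0
    have hCK1 : (1 : ℚ) ≤ CK := by exact_mod_cast hCK0
    have hCL1 : (1 : ℚ) ≤ CL := by exact_mod_cast hCL0
    have e1 : ∀ x ∈ antidiagonal k, msz (c * T) ((((zq q : ℚ[X]) : PowerSeries ℚ) ^ x.1 *
        ((X * zq q : ℚ[X]) : PowerSeries ℚ) ^ x.2) • hsM x.2 (Gq N F x.1)) ≤
        W ^ T * (CH : ℚ) ^ (c * T + T + 1) := by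
      rintro ⟨a, b⟩ hab
      rw [mem_antidiagonal] at hab
      simp only at hab ⊢
      refine (msz_smul _ _ _).trans ?_
      have f1 : sz (c * T) (((zq q : ℚ[X]) : PowerSeries ℚ) ^ a *
          ((X * zq q : ℚ[X]) : PowerSeries ℚ) ^ b) ≤ (1 + nrm (zq q)) ^ T * (1 + nrm (X * zq q)) ^ T := by
        refine (sz_mul _ _ _).trans ?_
        apply mul_le_mul _ _ (sz_nonneg _ _) (by positivity)
        · refine (sz_pow _ _ _).trans ?_
          calc sz (c * T) ((zq q : ℚ[X]) : PowerSeries ℚ) ^ a ≤ (1 + nrm (zq q)) ^ a :=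
                pow_le_pow_left₀ (sz_nonneg _ _) ((sz_coe_le _ _).trans (by linarith)) _
            _ ≤ _ := pow_le_pow_right₀ (by linarith) (by omega)
        · refine (sz_pow _ _ _).trans ?_
          calc sz (c * T) ((X * zq q : ℚ[X]) : PowerSeries ℚ) ^ b ≤ (1 + nrm (X * zq q)) ^ b :=
                pow_le_pow_left₀ (sz_nonneg _ _) ((sz_coe_le _ _).trans (by linarith)) _
            _ ≤ _ := pow_le_pow_right₀ (by linarith) (by omega)
      have f2 : msz (c * T) (hsM b (Gq N F a)) ≤ (2 ^ (c + 1)) ^ T * (s ^ T * (CH : ℚ) ^ (c * T + T + 1)) := by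
        refine (msz_hsM _ _ _).trans ?_
        apply mul_le_mul _ _ (msz_nonneg _ _) (by positivity)
        · rw [← pow_mul]
          apply pow_le_pow_right₀ (by norm_num)
          nlinarith
        · refine (msz_Gq _ N F a).trans ?_
          rw [← hs]
          apply mul_le_mul _ _ (msz_nonneg _ _) (by positivity)
          · exact pow_le_pow_right₀ hs1 (by omega)
          · refine (msz_mul _ _ _).trans ?_
            rw [msz_single, one_mul]
            have f3 : msz (c * T + b) H ≤ msz (c * T + T) H := by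
              unfold msz
              exact Finset.sum_le_sum fun u _ => Finset.sum_le_sum fun v _ => sz_mono (by omega) _
            exact f3.trans hH1
      calc sz (c * T) (((zq q : ℚ[X]) : PowerSeries ℚ) ^ a *
              ((X * zq q : ℚ[X]) : PowerSeries ℚ) ^ b) * msz (c * T) (hsM b (Gq N F a))
          ≤ ((1 + nrm (zq q)) ^ T * (1 + nrm (X * zq q)) ^ T) *
            ((2 ^ (c + 1)) ^ T * (s ^ T * (CH : ℚ) ^ (c * T + T + 1))) :=
            mul_le_mul f1 f2 (msz_nonneg _ _) (by positivity)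
        _ = W ^ T * (CH : ℚ) ^ (c * T + T + 1) := by rw [hW, mul_pow, mul_pow, mul_pow]; ring
    have e2 := (msz_sum (c * T) (antidiagonal k) _).trans (Finset.sum_le_sum e1)
    rw [Finset.sum_const, Finset.Nat.card_antidiagonal, nsmul_eq_mul] at e2
    have e3 : ((k + 1 : ℕ) : ℚ) ≤ 2 ^ T := by
      have h1 : k + 1 ≤ 2 ^ T := by
        have : T < 2 ^ T := Nat.lt_two_pow_self
        omega
      exact_mod_cast h1
    have e4 : ((k + 1 : ℕ) : ℚ) * (W ^ T * (CH : ℚ) ^ (c * T + T + 1)) ≤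
        ((w : ℚ) + 1) ^ (T + 1) * (CH : ℚ) ^ (c * T + T + 1) := by
      rw [← mul_assoc]
      apply mul_le_mul_of_nonneg_right _ (by positivity)
      calc ((k + 1 : ℕ) : ℚ) * W ^ T ≤ 2 ^ T * W ^ T := mul_le_mul_of_nonneg_right e3 (by positivity)
        _ = (2 * W) ^ T := (mul_pow _ _ _).symm
        _ ≤ ((w : ℚ) + 1) ^ T := pow_le_pow_left₀ (by positivity) (by linarith) _
        _ ≤ _ := pow_le_pow_right₀ hw0 (by omega)
    refine (mul_le_mul (e2.trans e4) hK1 (msz_nonneg _ _) (by positivity)).trans ?_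
    push_cast
    rw [mul_pow, mul_pow, mul_pow, ← pow_mul, ← pow_mul, ← pow_mul]
    have g1 : (CH : ℚ) ^ (c * T + T + 1) ≤ (CH : ℚ) ^ ((c + 2) * (T + 1)) :=
      pow_le_pow_right₀ hCH1 (by nlinarith)
    have g2 : (CK : ℚ) ^ (c * T + 1) ≤ (CK : ℚ) ^ ((c + 1) * (T + 1)) :=
      pow_le_pow_right₀ hCK1 (by nlinarith)
    have g3 : (1 : ℚ) ≤ (CL : ℚ) ^ (ν * (T + 1)) := one_le_pow₀ hCL1
    calc ((w : ℚ) + 1) ^ (T + 1) * (CH : ℚ) ^ (c * T + T + 1) * (CK : ℚ) ^ (c * T + 1)
        ≤ ((w : ℚ) + 1) ^ (T + 1) * (CH : ℚ) ^ ((c + 2) * (T + 1)) * (CK : ℚ) ^ ((c + 1) * (T + 1)) := by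
          gcongr
      _ = ((w : ℚ) + 1) ^ (T + 1) * (CH : ℚ) ^ ((c + 2) * (T + 1)) * 1 *
            (CK : ℚ) ^ ((c + 1) * (T + 1)) := by ring
      _ ≤ _ := by gcongr

theorem lifts_hasse (p : ℤ[X]) (a : ℕ) :
    hasseDeriv a (zq p) ∈ Polynomial.lifts (Int.castRingHom ℚ) := by
  rw [Polynomial.lifts_iff_coeff_lifts]
  intro n
  refine ⟨((n + a).choose a : ℤ) * p.coeff (n + a), ?_⟩
  rw [hasseDeriv_coeff, zq, Polynomial.coeff_map]
  simp

end main

/-- GAL -/
theorem gal : GalStmt := by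
  intro d _ _ H K N q B hG
  obtain ⟨C, hC0, hC⟩ := weak hG
  obtain ⟨r, hr⟩ := exists_nat_ge (nrm (X * zq q))
  refine ⟨2 * (r + 1) * C, by positivity, fun T => ?_⟩
  obtain ⟨D, hD0, hD1, hD2⟩ := hC T
  refine ⟨D, hD0, hD1.trans (Nat.pow_le_pow_left (by nlinarith) _), ?_⟩
  intro M A P hM hA k hk
  have hP : P.map zq = ∑ i, ∑ j, zq (P i j) • Matrix.single i j (1 : ℚ[X]) := by
    rw [Matrix.matrix_eq_sum_single (P.map zq)]
    apply Finset.sum_congr rfl
    intro i _
    apply Finset.sum_congr rfl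
    intro j _
    rw [Matrix.smul_single, Matrix.map_apply, smul_eq_mul, mul_one]
  have hPk : Pk (zq q) (B.map zq) (N.map (fun x => (x : ℚ))) (P.map zq) k =
      ∑ i, ∑ j, ∑ x ∈ antidiagonal k,
        ((X * zq q) ^ x.1 * hasseDeriv x.1 (zq (P i j))) • PE N q B i j x.2 := by
    rw [hP, Pk_sum]
    apply Finset.sum_congr rfl
    intro i _
    rw [Pk_sum]
    apply Finset.sum_congr rfl
    intro j _
    rw [Pk_smul]
  have hXq : (X * zq q) ∈ Polynomial.lifts (Int.castRingHom ℚ) := by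
    rw [Polynomial.mem_lifts]
    exact ⟨X * q, by rw [zq, Polynomial.map_mul, Polynomial.map_X]⟩
  constructor
  · intro u v
    have h1 : (D : ℚ) • Pk (zq q) (B.map zq) (N.map (fun x => (x : ℚ))) (P.map zq) k u v ∈
        Polynomial.lifts (Int.castRingHom ℚ) := by
      rw [hPk]
      simp only [Matrix.sum_apply, Finset.smul_sum, Matrix.smul_apply]
      apply Subsemiring.sum_mem
      intro i _
      apply Subsemiring.sum_mem
      intro j _
      apply Subsemiring.sum_mem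
      intro x hx
      rw [mem_antidiagonal] at hx
      rw [smul_comm, smul_eq_mul]
      apply Subsemiring.mul_mem
      · exact Subsemiring.mul_mem _ (Subsemiring.pow_mem _ hXq _) (lifts_hasse _ _)
      · exact (hD2 i j x.2 (by omega)).1 u v
    rw [Polynomial.mem_lifts] at h1
    obtain ⟨z, hz⟩ := h1
    exact ⟨z, hz.symm⟩
  · have h1 : ∀ u v, nrm (Pk (zq q) (B.map zq) (N.map (fun x => (x : ℚ))) (P.map zq) k u v) ≤
        ∑ i, ∑ j, ∑ x ∈ antidiagonal k,
          ((r : ℚ) + 1) ^ T * (2 ^ M * nrm (zq (P i j))) * nrm (PE N q B i j x.2 u v) := by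
      intro u v
      rw [hPk]
      simp only [Matrix.sum_apply, Matrix.smul_apply]
      refine (nrm_sum _ _).trans (Finset.sum_le_sum fun i _ => ?_)
      refine (nrm_sum _ _).trans (Finset.sum_le_sum fun j _ => ?_)
      refine (nrm_sum _ _).trans (Finset.sum_le_sum fun x hx => ?_)
      rw [mem_antidiagonal] at hx
      rw [smul_eq_mul]
      refine (nrm_mul _ _).trans (mul_le_mul_of_nonneg_right ?_ (nrm_nonneg _))
      refine (nrm_mul _ _).trans ?_
      apply mul_le_mul _ _ (nrm_nonneg _) (by positivity)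
      · refine (nrm_pow _ _).trans ?_
        calc nrm (X * zq q) ^ x.1 ≤ ((r : ℚ) + 1) ^ x.1 :=
              pow_le_pow_left₀ (nrm_nonneg _) (by linarith) _
          _ ≤ _ := pow_le_pow_right₀ (by
              have : (0 : ℚ) ≤ r := by positivity
              linarith) (by omega)
      · apply nrm_hasse
        refine le_trans ?_ (hM i j)
        exact Polynomial.natDegree_map_le
    have h2 : ∑ u, ∑ v, nrm (Pk (zq q) (B.map zq) (N.map (fun x => (x : ℚ))) (P.map zq) k u v) ≤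
        ∑ i, ∑ j, ∑ x ∈ antidiagonal k,
          ((r : ℚ) + 1) ^ T * (2 ^ M * nrm (zq (P i j))) * ∑ u, ∑ v, nrm (PE N q B i j x.2 u v) := by
      refine (Finset.sum_le_sum fun u _ => Finset.sum_le_sum fun v _ => h1 u v).trans (le_of_eq ?_)
      simp only [Finset.mul_sum]
      have : ∀ (f : d → d → d → d → ℕ × ℕ → ℚ),
          ∑ u, ∑ v, ∑ i, ∑ j, ∑ x ∈ antidiagonal k, f u v i j x =
          ∑ i, ∑ j, ∑ x ∈ antidiagonal k, ∑ u, ∑ v, f u v i j x := by
        intro f
        have s1 : ∀ u, ∑ v, ∑ i, ∑ j, ∑ x ∈ antidiagonal k, f u v i j x =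
            ∑ i, ∑ v, ∑ j, ∑ x ∈ antidiagonal k, f u v i j x := fun u => Finset.sum_comm
        simp only [s1]
        rw [Finset.sum_comm]
        apply Finset.sum_congr rfl
        intro i _
        have s2 : ∀ u, ∑ v, ∑ j, ∑ x ∈ antidiagonal k, f u v i j x =
            ∑ j, ∑ v, ∑ x ∈ antidiagonal k, f u v i j x := fun u => Finset.sum_comm
        simp only [s2]
        rw [Finset.sum_comm]
        apply Finset.sum_congr rfl
        intro j _
        have s3 : ∀ u, ∑ v, ∑ x ∈ antidiagonal k, f u v i j x =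
            ∑ x ∈ antidiagonal k, ∑ v, f u v i j x := fun u => Finset.sum_comm
        simp only [s3]
        rw [Finset.sum_comm]
      exact this _
    refine h2.trans ?_
    have h3 : ∑ i, ∑ j, ∑ x ∈ antidiagonal k,
          ((r : ℚ) + 1) ^ T * (2 ^ M * nrm (zq (P i j))) * ∑ u, ∑ v, nrm (PE N q B i j x.2 u v) ≤
        ∑ i, ∑ j, ∑ _x ∈ antidiagonal k,
          ((r : ℚ) + 1) ^ T * (2 ^ M * nrm (zq (P i j))) * (C : ℚ) ^ (T + 1) := by
      refine Finset.sum_le_sum fun i _ => Finset.sum_le_sum fun j _ => Finset.sum_le_sum fun x hx => ?_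
      rw [mem_antidiagonal] at hx
      have := nrm_nonneg (zq (P i j))
      exact mul_le_mul_of_nonneg_left (hD2 i j x.2 (by omega)).2 (by positivity)
    refine h3.trans ?_
    simp only [Finset.sum_const, Finset.Nat.card_antidiagonal, nsmul_eq_mul]
    have h4 : ∀ i j, ((k + 1 : ℕ) : ℚ) * (((r : ℚ) + 1) ^ T * (2 ^ M * nrm (zq (P i j))) *
        (C : ℚ) ^ (T + 1)) = nrm (zq (P i j)) *
          (((k + 1 : ℕ) : ℚ) * ((r : ℚ) + 1) ^ T * 2 ^ M * (C : ℚ) ^ (T + 1)) := by
      intro i j; ring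
    simp only [h4]
    simp only [← Finset.sum_mul]
    have h5 : ((k + 1 : ℕ) : ℚ) ≤ 2 ^ T := by
      have h1 : k + 1 ≤ 2 ^ T := by
        have : T < 2 ^ T := Nat.lt_two_pow_self
        omega
      exact_mod_cast h1
    have hr0 : (0 : ℚ) ≤ r := by positivity
    have h6 : ((k + 1 : ℕ) : ℚ) * ((r : ℚ) + 1) ^ T * 2 ^ M * (C : ℚ) ^ (T + 1) ≤
        2 ^ M * ((2 * ((r : ℚ) + 1) * C)) ^ (T + 1) := by
      rw [mul_pow (2 * ((r : ℚ) + 1)), mul_pow 2]
      calc ((k + 1 : ℕ) : ℚ) * ((r : ℚ) + 1) ^ T * 2 ^ M * (C : ℚ) ^ (T + 1)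
          ≤ 2 ^ (T + 1) * ((r : ℚ) + 1) ^ (T + 1) * 2 ^ M * (C : ℚ) ^ (T + 1) := by
            gcongr
            · exact h5.trans (pow_le_pow_right₀ (by norm_num) (by omega))
            · linarith
            · omega
        _ = _ := by ring
    have hA0 : 0 ≤ ∑ i, ∑ j, nrm (zq (P i j)) :=
      Finset.sum_nonneg fun _ _ => Finset.sum_nonneg fun _ _ => nrm_nonneg _
    calc (∑ i, ∑ j, nrm (zq (P i j))) *
          (((k + 1 : ℕ) : ℚ) * ((r : ℚ) + 1) ^ T * 2 ^ M * (C : ℚ) ^ (T + 1))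
        ≤ A * (2 ^ M * ((2 * ((r : ℚ) + 1) * C)) ^ (T + 1)) :=
          mul_le_mul hA h6 (by positivity) (hA0.trans hA)
      _ = _ := by push_cast; ring

end Pool.Agent.Helper39_MT
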