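import Pool.Agent.MT100.Stmts

/-! MT100, module GAL, part 1: formal identities for the recursion `Pk`. -/

set_option autoImplicit false
set_option linter.unusedSectionVars false

namespace Pool.Agent.Helper39_MT

open Matrix Polynomial Pool.Agent.MT100
open Finset.HasAntidiagonal (antidiagonal mem_antidiagonal)

/-! ### A telescoping identity -/

theorem antidiag_tel {V : Type*} [AddCommGroup V] [Module ℚ V] (t : ℕ → ℕ → V) (k : ℕ) :
    ∑ p ∈ antidiagonal k, (((p.1 : ℚ) + 1) • t (p.1 + 1) p.2 + ((p.2 : ℚ) + 1) • t p.1 (p.2 + 1)) =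
      ((k : ℚ) + 1) • ∑ p ∈ antidiagonal (k + 1), t p.1 p.2 := by
  have h1 : ∑ p ∈ antidiagonal (k + 1), (p.1 : ℚ) • t p.1 p.2 =
      ∑ p ∈ antidiagonal k, ((p.1 : ℚ) + 1) • t (p.1 + 1) p.2 := by
    rw [Finset.Nat.antidiagonal_succ, Finset.sum_cons, Finset.sum_map]
    simp
  have h2 : ∑ p ∈ antidiagonal (k + 1), (p.2 : ℚ) • t p.1 p.2 =
      ∑ p ∈ antidiagonal k, ((p.2 : ℚ) + 1) • t p.1 (p.2 + 1) := by
    rw [Finset.Nat.antidiagonal_succ', Finset.sum_cons, Finset.sum_map]
    simp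
  rw [Finset.sum_add_distrib, ← h1, ← h2, ← Finset.sum_add_distrib, Finset.smul_sum]
  apply Finset.sum_congr rfl
  intro p hp
  rw [mem_antidiagonal] at hp
  rw [← add_smul]
  congr 1
  rw [← Nat.cast_add, hp]
  push_cast
  ring

/-! ### The recursion -/

section rec
variable {s d : Type*} [Fintype s] [Fintype d] (q : ℚ[X]) (B : Matrix d d ℚ[X]) (N : Matrix s s ℚ)

/-- the right hand side of the recursion -/
noncomputable def step (k : ℕ) (P : Matrix s d ℚ[X]) : Matrix s d ℚ[X] :=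
  (X * q) • P.map derivative + P * B - q • (N.map C * P) - (k : ℚ) • (derivative (X * q) • P)

theorem Pk_succ (P : Matrix s d ℚ[X]) (k : ℕ) :
    ((k : ℚ) + 1) • Pk q B N P (k + 1) = step q B N k (Pk q B N P k) := by
  have h : ((k : ℚ) + 1) ≠ 0 := by positivity
  rw [Pk, smul_smul, mul_inv_cancel₀ h, one_smul]
  rfl

/-- uniqueness -/
theorem Pk_unique (P : Matrix s d ℚ[X]) (R : ℕ → Matrix s d ℚ[X]) (h0 : R 0 = P)
    (h : ∀ k : ℕ, ((k : ℚ) + 1) • R (k + 1) = step q B N k (R k)) (k : ℕ) : R k = Pk q B N P k := by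
  induction k with
  | zero => rw [h0]; rfl
  | succ k ih =>
    have hk : ((k : ℚ) + 1) ≠ 0 := by positivity
    have h1 := h k
    rw [ih, ← Pk_succ] at h1
    have h2 := congrArg (fun x => ((k : ℚ) + 1)⁻¹ • x) h1
    simpa only [smul_smul, inv_mul_cancel₀ hk, one_smul] using h2

theorem map_derivative_add (P Q : Matrix s d ℚ[X]) :
    (P + Q).map derivative = P.map derivative + Q.map derivative := by
  ext i j : 1
  simp

theorem map_derivative_smul (p : ℚ[X]) (Q : Matrix s d ℚ[X]) :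
    (p • Q).map derivative = derivative p • Q + p • Q.map derivative := by
  ext i j : 1
  simp [Matrix.map_apply]

theorem step_add (k : ℕ) (P Q : Matrix s d ℚ[X]) :
    step q B N k (P + Q) = step q B N k P + step q B N k Q := by
  unfold step
  rw [map_derivative_add, Matrix.add_mul, Matrix.mul_add]
  simp only [smul_add]
  abel

theorem step_zero (k : ℕ) : step q B N k (0 : Matrix s d ℚ[X]) = 0 := by
  unfold step
  have : (0 : Matrix s d ℚ[X]).map derivative = 0 := by
    ext i j : 1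
    simp
  rw [this]
  simp

theorem Pk_add (P Q : Matrix s d ℚ[X]) (k : ℕ) :
    Pk q B N (P + Q) k = Pk q B N P k + Pk q B N Q k := by
  symm
  apply Pk_unique q B N (P + Q) (fun k => Pk q B N P k + Pk q B N Q k) rfl
  intro k
  show ((k : ℚ) + 1) • (Pk q B N P (k + 1) + Pk q B N Q (k + 1)) = _
  rw [smul_add, Pk_succ, Pk_succ, step_add]

theorem Pk_zero' (k : ℕ) : Pk q B N (0 : Matrix s d ℚ[X]) k = 0 := by
  symm
  apply Pk_unique q B N 0 (fun _ => 0) rfl
  intro k
  rw [smul_zero, step_zero]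

theorem Pk_sum {σ : Type*} (S : Finset σ) (P : σ → Matrix s d ℚ[X]) (k : ℕ) :
    Pk q B N (∑ x ∈ S, P x) k = ∑ x ∈ S, Pk q B N (P x) k := by
  classical
  induction S using Finset.induction_on with
  | empty => simp [Pk_zero']
  | insert a S ha ih => rw [Finset.sum_insert ha, Finset.sum_insert ha, Pk_add, ih]

/-- Leibniz rule -/
theorem Pk_smul (p : ℚ[X]) (P : Matrix s d ℚ[X]) (k : ℕ) :
    Pk q B N (p • P) k =
      ∑ x ∈ antidiagonal k, ((X * q) ^ x.1 * hasseDeriv x.1 p) • Pk q B N P x.2 := by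
  symm
  apply Pk_unique q B N (p • P) (fun k => ∑ x ∈ antidiagonal k,
    ((X * q) ^ x.1 * hasseDeriv x.1 p) • Pk q B N P x.2)
  · simp [Pk, hasseDeriv_zero]
  intro k
  have hsum : ∀ (S : Finset (ℕ × ℕ)) (F : ℕ × ℕ → Matrix s d ℚ[X]),
      step q B N k (∑ x ∈ S, F x) = ∑ x ∈ S, step q B N k (F x) := by
    intro S F
    classical
    induction S using Finset.induction_on with
    | empty => simp [step_zero]
    | insert a S ha ih => rw [Finset.sum_insert ha, Finset.sum_insert ha, step_add, ih]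
  rw [hsum]
  rw [← antidiag_tel (fun a b => ((X * q) ^ a * hasseDeriv a p) • Pk q B N P b)]
  apply Finset.sum_congr rfl
  rintro ⟨a, b⟩ hab
  rw [mem_antidiagonal] at hab
  simp only at hab ⊢
  have hd : derivative (hasseDeriv a p) = ((a : ℚ[X]) + 1) * hasseDeriv (a + 1) p := by
    have h1 := congrArg (fun f => f p) (hasseDeriv_comp (R := ℚ) 1 a)
    simp only [LinearMap.comp_apply, LinearMap.smul_apply, hasseDeriv_one] at h1
    rw [h1, add_comm 1 a, Nat.choose_one_right, nsmul_eq_mul]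
    push_cast
    rfl
  have hpow : (X * q) * derivative ((X * q) ^ a) = (a : ℚ[X]) * derivative (X * q) * (X * q) ^ a := by
    rcases a with _ | a
    · simp
    · rw [derivative_pow_succ, pow_succ, map_add, map_one, Polynomial.C_eq_natCast]
      push_cast
      ring
  have hPb := Pk_succ q B N P b
  have hk : (k : ℚ) = (a : ℚ) + b := by rw [← hab]; push_cast; ring
  have e1 : step q B N k (((X * q) ^ a * hasseDeriv a p) • Pk q B N P b) =
      ((X * q) ^ a * hasseDeriv a p) • step q B N b (Pk q B N P b) +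
      ((X * q) * derivative ((X * q) ^ a * hasseDeriv a p) -
        (a : ℚ[X]) * derivative (X * q) * ((X * q) ^ a * hasseDeriv a p)) • Pk q B N P b := by
    unfold step
    rw [map_derivative_smul, hk, Matrix.smul_mul, Matrix.mul_smul]
    have hc : ∀ (c : ℚ) (f : ℚ[X]) (Y : Matrix s d ℚ[X]), c • (f • Y) = (C c * f) • Y := by
      intro c f Y
      rw [← smul_assoc, Polynomial.smul_eq_C_mul]
    rw [hc, hc, map_add, Polynomial.C_eq_natCast, Polynomial.C_eq_natCast]
    module
  rw [e1, ← hPb]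
  have e2 : (X * q) * derivative ((X * q) ^ a * hasseDeriv a p) -
        (a : ℚ[X]) * derivative (X * q) * ((X * q) ^ a * hasseDeriv a p) =
      ((a : ℚ[X]) + 1) * ((X * q) ^ (a + 1) * hasseDeriv (a + 1) p) := by
    rw [derivative_mul, hd, mul_add, ← mul_assoc (X * q), hpow, pow_succ]
    ring
  rw [e2]
  have hc : ∀ (n : ℕ) (f : ℚ[X]) (Y : Matrix s d ℚ[X]), ((n : ℚ) + 1) • (f • Y) = (((n : ℚ[X]) + 1) * f) • Y := by
    intro n f Y
    rw [← smul_assoc, Polynomial.smul_eq_C_mul, map_add, Polynomial.C_eq_natCast, map_one]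
  rw [hc, smul_comm, add_comm]

end rec

/-! ### The identity for `Pₖ H` -/

section main
variable {d : Type*} [Fintype d] [DecidableEq d]

/-- the divided derivative of a matrix -/
noncomputable def hsM (b : ℕ) (X : Matrix d d (PowerSeries ℚ)) : Matrix d d (PowerSeries ℚ) :=
  X.map (hs b)

theorem hs_add (b : ℕ) (f g : PowerSeries ℚ) : hs b (f + g) = hs b f + hs b g := by
  ext i
  simp only [hs, PowerSeries.coeff_mk, map_add, mul_add]

theorem hs_smul (b : ℕ) (c : ℚ) (f : PowerSeries ℚ) : hs b (c • f) = c • hs b f := by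
  ext i
  simp only [hs, PowerSeries.coeff_mk, PowerSeries.coeff_smul, smul_eq_mul]
  ring

theorem hs_zero (f : PowerSeries ℚ) : hs 0 f = f := by
  ext i
  simp [hs]

theorem dv_hs (b : ℕ) (f : PowerSeries ℚ) : dv (hs b f) = ((b : ℚ) + 1) • hs (b + 1) f := by
  ext i
  simp only [dv, hs, PowerSeries.coeff_derivative, PowerSeries.coeff_mk, PowerSeries.coeff_smul,
    smul_eq_mul]
  have h1 : i + 1 + b = i + (b + 1) := by ring
  rw [h1]
  have h2 : ((i + (b + 1)).choose b : ℚ) * ((i : ℚ) + 1) =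
      ((b : ℚ) + 1) * ((i + (b + 1)).choose (b + 1) : ℚ) := by
    have h3 := Nat.choose_succ_right_eq (i + (b + 1)) b
    have h4 : i + (b + 1) - b = i + 1 := by omega
    rw [h4] at h3
    have h5 : (((i + (b + 1)).choose (b + 1) : ℕ) : ℚ) * ((b : ℚ) + 1) =
        ((i + (b + 1)).choose b : ℚ) * ((i : ℚ) + 1) := by exact_mod_cast h3
    rw [← h5]; ring
  linear_combination (PowerSeries.coeff (i + (b + 1)) f) * h2

/-- the derivative of matrices as a linear map -/
theorem dvM_smul (f : PowerSeries ℚ) (X : Matrix d d (PowerSeries ℚ)) :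
    (f • X).map dv = dv f • X + f • X.map dv := by
  ext i j : 1
  simp only [Matrix.map_apply, Matrix.smul_apply, Matrix.add_apply, smul_eq_mul, dv,
    Derivation.leibniz]
  ring

theorem dvM_mul (X Y : Matrix d d (PowerSeries ℚ)) :
    (X * Y).map dv = X.map dv * Y + X * Y.map dv := by
  ext i j : 1
  simp only [Matrix.map_apply, Matrix.mul_apply, Matrix.add_apply, dv, map_sum, Derivation.leibniz,
    smul_eq_mul, ← Finset.sum_add_distrib]
  apply Finset.sum_congr rfl
  intro k _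
  ring

theorem dvM_add (X Y : Matrix d d (PowerSeries ℚ)) : (X + Y).map dv = X.map dv + Y.map dv := by
  ext i j : 1
  simp [Matrix.map_apply, dv]

theorem dvM_sum {σ : Type*} (S : Finset σ) (F : σ → Matrix d d (PowerSeries ℚ)) :
    (∑ x ∈ S, F x).map dv = ∑ x ∈ S, (F x).map dv := by
  classical
  induction S using Finset.induction_on with
  | empty => ext i j : 1; simp [Matrix.map_apply, dv]
  | insert a S ha ih => rw [Finset.sum_insert ha, Finset.sum_insert ha, dvM_add, ih]

theorem dvM_hsM (b : ℕ) (X : Matrix d d (PowerSeries ℚ)) :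
    (hsM b X).map dv = ((b : ℚ) + 1) • hsM (b + 1) X := by
  ext i j : 1
  simp only [hsM, Matrix.map_apply, Matrix.smul_apply]
  exact dv_hs b _

/-- a constant matrix -/
noncomputable def cm (N : Matrix d d ℤ) : Matrix d d (PowerSeries ℚ) :=
  N.map (fun x => (x : PowerSeries ℚ))

theorem intCast_eq (z : ℤ) : ((z : ℤ) : PowerSeries ℚ) = PowerSeries.C (z : ℚ) := by
  simp

theorem hs_mul_int (b : ℕ) (f : PowerSeries ℚ) (z : ℤ) : hs b (f * (z : PowerSeries ℚ)) =
    hs b f * (z : PowerSeries ℚ) := by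
  ext i
  rw [intCast_eq, hs, hs, PowerSeries.coeff_mul_C, PowerSeries.coeff_mk, PowerSeries.coeff_mk,
    PowerSeries.coeff_mul_C]
  ring

theorem hs_sum {σ : Type*} (b : ℕ) (S : Finset σ) (F : σ → PowerSeries ℚ) :
    hs b (∑ x ∈ S, F x) = ∑ x ∈ S, hs b (F x) := by
  classical
  induction S using Finset.induction_on with
  | empty => ext i; simp [hs]
  | insert a S ha ih => rw [Finset.sum_insert ha, Finset.sum_insert ha, hs_add, ih]

theorem hsM_mul_cm (b : ℕ) (X : Matrix d d (PowerSeries ℚ)) (N : Matrix d d ℤ) :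
    hsM b (X * cm N) = hsM b X * cm N := by
  ext i j : 1
  simp only [hsM, cm, Matrix.map_apply, Matrix.mul_apply, hs_sum, hs_mul_int]

theorem hsM_cm_mul (b : ℕ) (X : Matrix d d (PowerSeries ℚ)) (N : Matrix d d ℤ) :
    hsM b (cm N * X) = cm N * hsM b X := by
  ext i j : 1
  simp only [hsM, cm, Matrix.map_apply, Matrix.mul_apply, hs_sum]
  apply Finset.sum_congr rfl
  intro k _
  rw [mul_comm, hs_mul_int, mul_comm]

theorem hsM_add (b : ℕ) (X Y : Matrix d d (PowerSeries ℚ)) : hsM b (X + Y) = hsM b X + hsM b Y := by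
  ext i j : 1
  simp only [hsM, Matrix.map_apply, Matrix.add_apply, hs_add]

theorem hsM_smul (b : ℕ) (c : ℚ) (X : Matrix d d (PowerSeries ℚ)) :
    hsM b (c • X) = c • hsM b X := by
  ext i j : 1
  simp only [hsM, Matrix.map_apply, Matrix.smul_apply, hs_smul]

/-- the constant terms of the main identity -/
noncomputable def Gq (N : Matrix d d ℤ) (F : Matrix d d (PowerSeries ℚ)) :
    ℕ → Matrix d d (PowerSeries ℚ)
  | 0 => F
  | j + 1 => ((j : ℚ) + 1)⁻¹ • (Gq N F j * cm N - cm N * Gq N F j - (j : ℚ) • Gq N F j)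

theorem Gq_succ (N : Matrix d d ℤ) (F : Matrix d d (PowerSeries ℚ)) (j : ℕ) :
    Gq N F j * cm N - cm N * Gq N F j = ((j : ℚ) + 1) • Gq N F (j + 1) + (j : ℚ) • Gq N F j := by
  have h : ((j : ℚ) + 1) ≠ 0 := by positivity
  rw [Gq, smul_smul, mul_inv_cancel₀ h, one_smul]
  abel

/-- coercion of polynomial matrices -/
noncomputable def pm (P : Matrix d d ℚ[X]) : Matrix d d (PowerSeries ℚ) :=
  P.map (fun p => (p : PowerSeries ℚ))

theorem pm_eq (P : Matrix d d ℚ[X]) : pm P = P.map (Polynomial.coeToPowerSeries.ringHom (R := ℚ)) := by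
  ext i j : 1
  simp [pm, Polynomial.coeToPowerSeries.ringHom_apply]

theorem pm_add (P Q : Matrix d d ℚ[X]) : pm (P + Q) = pm P + pm Q := by
  ext i j : 1
  simp [pm]

theorem pm_sub (P Q : Matrix d d ℚ[X]) : pm (P - Q) = pm P - pm Q := by
  rw [pm_eq, pm_eq, pm_eq]
  ext i j : 1
  simp

theorem pm_mul (P Q : Matrix d d ℚ[X]) : pm (P * Q) = pm P * pm Q := by
  rw [pm_eq, pm_eq, pm_eq, Matrix.map_mul]

theorem pm_smul (p : ℚ[X]) (Q : Matrix d d ℚ[X]) : pm (p • Q) = (p : PowerSeries ℚ) • pm Q := by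
  ext i j : 1
  simp [pm]

theorem pm_qsmul (c : ℚ) (Q : Matrix d d ℚ[X]) : pm (c • Q) = c • pm Q := by
  ext i j : 1
  ext n
  simp [pm]

theorem pm_derivative (P : Matrix d d ℚ[X]) : pm (P.map derivative) = (pm P).map dv := by
  ext i j : 1
  simp only [pm, Matrix.map_apply, dv]
  ext n
  rw [PowerSeries.coeff_derivative, Polynomial.coeff_coe, Polynomial.coeff_coe,
    Polynomial.coeff_derivative]

theorem alg_final {S V : Type*} [CommRing S] [AddCommGroup V] [Module S V] (a b w Q R u v : S)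
    (x y z : V) :
    ((a * (w - Q) + b * w) * (u * v)) • x + R • (u * v) • (b • y + y) +
      Q • (u * v) • (a • z + z + a • x) - (a • w • (u * v) • x + b • w • (u * v) • x) =
    a • (u * Q * v) • z + (u * Q * v) • z + (b • (u * (v * R)) • y + (u * (v * R)) • y) := by
  module

/-- MAIN IDENTITY. -/
theorem Pk_mul (q : ℚ[X]) (B : Matrix d d ℚ[X]) (N : Matrix d d ℤ) (H : Matrix d d (PowerSeries ℚ))
    (P : Matrix d d ℚ[X])
    (hode : (((X * q : ℚ[X]) : PowerSeries ℚ)) • H.map dv = pm B * H - (q : PowerSeries ℚ) • (H * cm N))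
    (k : ℕ) : pm (Pk q B (N.map (fun x => (x : ℚ))) P k) * H =
      ∑ x ∈ antidiagonal k, ((q : PowerSeries ℚ) ^ x.1 * ((X * q : ℚ[X]) : PowerSeries ℚ) ^ x.2) •
        hsM x.2 (Gq N (pm P * H) x.1) := by
  induction k with
  | zero =>
    have : hsM 0 (pm P * H) = pm P * H := by
      ext i j : 1
      simp only [hsM, Matrix.map_apply, hs_zero]
    simp [Pk, Gq, this]
  | succ k ih =>
    have hk : ((k : ℚ) + 1) ≠ 0 := by positivity
    set N' : Matrix d d ℚ := N.map (fun x => (x : ℚ)) with hN'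
    have hcm : pm (N'.map C) = cm N := by
      ext i j : 1
      show ((C ((N i j : ℤ) : ℚ) : ℚ[X]) : PowerSeries ℚ) = ((N i j : ℤ) : PowerSeries ℚ)
      rw [Polynomial.coe_C, intCast_eq]
    have e1 : ((k : ℚ) + 1) • (pm (Pk q B N' P (k + 1)) * H) =
        ((X * q : ℚ[X]) : PowerSeries ℚ) • (pm (Pk q B N' P k) * H).map dv +
          (q : PowerSeries ℚ) • ((pm (Pk q B N' P k) * H) * cm N - cm N * (pm (Pk q B N' P k) * H)) -
          (k : ℚ) • ((derivative (X * q) : ℚ[X]) : PowerSeries ℚ) • (pm (Pk q B N' P k) * H) := by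
      rw [← Matrix.smul_mul, ← pm_qsmul, Pk_succ, step, pm_sub, pm_sub, pm_add, pm_mul, pm_smul,
        pm_smul, pm_mul, pm_qsmul, pm_smul, pm_derivative, hcm, dvM_mul]
      have e2 : ((X * q : ℚ[X]) : PowerSeries ℚ) • (pm (Pk q B N' P k) * H.map dv) =
          pm (Pk q B N' P k) * (pm B * H) - (q : PowerSeries ℚ) • (pm (Pk q B N' P k) * (H * cm N)) := by
        rw [← Matrix.mul_smul, hode, Matrix.mul_sub, Matrix.mul_smul]
      rw [smul_add, e2]
      simp only [Matrix.sub_mul, Matrix.add_mul, Matrix.smul_mul, Matrix.mul_assoc, smul_sub]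
      abel
    have e3 : ∀ Y Z : Matrix d d (PowerSeries ℚ), ((k : ℚ) + 1) • Y = ((k : ℚ) + 1) • Z → Y = Z := by
      intro Y Z h
      have h2 := congrArg (fun x => ((k : ℚ) + 1)⁻¹ • x) h
      simpa only [smul_smul, inv_mul_cancel₀ hk, one_smul] using h2
    apply e3
    rw [e1, ih, ← antidiag_tel (fun a b => ((q : PowerSeries ℚ) ^ a *
      ((X * q : ℚ[X]) : PowerSeries ℚ) ^ b) • hsM b (Gq N (pm P * H) a)), dvM_sum, Finset.smul_sum,
      Finset.sum_mul, Finset.mul_sum, ← Finset.sum_sub_distrib, Finset.smul_sum, Finset.smul_sum,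
      Finset.smul_sum, ← Finset.sum_add_distrib, ← Finset.sum_sub_distrib]
    apply Finset.sum_congr rfl
    rintro ⟨a, b⟩ hab
    rw [mem_antidiagonal] at hab
    simp only at hab ⊢
    obtain ⟨Q, hQ⟩ : ∃ Q : PowerSeries ℚ, Q = (q : PowerSeries ℚ) := ⟨_, rfl⟩
    obtain ⟨R, hR⟩ : ∃ R : PowerSeries ℚ, R = ((X * q : ℚ[X]) : PowerSeries ℚ) := ⟨_, rfl⟩
    have hRQ : R = PowerSeries.X * Q := by rw [hR, hQ, Polynomial.coe_mul, Polynomial.coe_X]
    have hdR : ((derivative (X * q) : ℚ[X]) : PowerSeries ℚ) = dv R := by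
      rw [hR]
      ext n
      rw [PowerSeries.coeff_derivative, Polynomial.coeff_coe, Polynomial.coeff_coe,
        Polynomial.coeff_derivative]
    rw [← hQ, ← hR, hdR]
    have hdR2 : dv R = Q + PowerSeries.X * dv Q := by
      rw [hRQ, dv, Derivation.leibniz, PowerSeries.derivative_X, smul_eq_mul, smul_eq_mul, dv]
      ring
    have hp1 : R * dv (R ^ b) = (b : PowerSeries ℚ) * dv R * R ^ b := by
      rcases b with _ | b
      · simp [dv]
      · rw [dv, Derivation.leibniz_pow, Nat.add_sub_cancel, pow_succ, nsmul_eq_mul, smul_eq_mul]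
        ring
    have hp2 : R * dv (Q ^ a) = (a : PowerSeries ℚ) * (dv R - Q) * Q ^ a := by
      rw [hdR2, hRQ]
      rcases a with _ | a
      · simp [dv]
      · rw [dv, Derivation.leibniz_pow, Nat.add_sub_cancel, pow_succ, nsmul_eq_mul, smul_eq_mul]
        ring
    have hp3 : R * dv (Q ^ a * R ^ b) = ((a : PowerSeries ℚ) * (dv R - Q) + (b : PowerSeries ℚ) * dv R) *
        (Q ^ a * R ^ b) := by
      have : dv (Q ^ a * R ^ b) = dv (Q ^ a) * R ^ b + Q ^ a * dv (R ^ b) := by
        simp only [dv, Derivation.leibniz, smul_eq_mul]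
        ring
      rw [this, mul_add, ← mul_assoc, hp2, mul_left_comm, hp1]
      ring
    have hG := Gq_succ N (pm P * H) a
    obtain ⟨G, hGd⟩ : ∃ G, G = Gq N (pm P * H) a := ⟨_, rfl⟩
    obtain ⟨G', hGd'⟩ : ∃ G, G = Gq N (pm P * H) (a + 1) := ⟨_, rfl⟩
    rw [← hGd, ← hGd'] at hG ⊢
    have hG2 : hsM b G * cm N - cm N * hsM b G =
        ((a : ℚ) + 1) • hsM b G' + (a : ℚ) • hsM b G := by
      rw [← hsM_smul, ← hsM_smul, ← hsM_add, ← hG, sub_eq_add_neg, sub_eq_add_neg, hsM_add,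
        hsM_mul_cm, ← hsM_cm_mul]
      congr 1
      rw [← neg_one_smul ℚ (cm N * G), hsM_smul, neg_one_smul]
    rw [dvM_smul, dvM_hsM, smul_add, smul_smul, hp3, Matrix.smul_mul, Matrix.mul_smul, ← smul_sub, hG2]
    have hk2 : (k : ℚ) = (a : ℚ) + b := by rw [← hab]; push_cast; ring
    rw [hk2]
    have hc : ∀ (n : ℕ) (Y : Matrix d d (PowerSeries ℚ)), ((n : ℚ)) • Y = (n : PowerSeries ℚ) • Y := by
      intro n Y
      rw [Nat.cast_smul_eq_nsmul, Nat.cast_smul_eq_nsmul]
    simp only [add_smul, one_smul, hc, pow_succ]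
    exact alg_final _ _ _ _ _ _ _ _ _ _

end main

end Pool.Agent.Helper39_MT
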