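import Pool.Agent.Helper39_MT.Gal1
import Mathlib.NumberTheory.Chebyshev

/-! MT100, module GAL, part 2: sizes and denominators of truncated power series. -/

set_option autoImplicit false
set_option linter.unusedSectionVars false

namespace Pool.Agent.Helper39_MT

open Matrix Polynomial Pool.Agent.MT100
open Finset.HasAntidiagonal (antidiagonal mem_antidiagonal)

/-! ### Sizes -/

/-- the size of the truncation at order `n` -/
noncomputable def sz (n : ℕ) (f : PowerSeries ℚ) : ℚ :=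
  ∑ i ∈ Finset.range (n + 1), |PowerSeries.coeff i f|

theorem sz_nonneg (n : ℕ) (f : PowerSeries ℚ) : 0 ≤ sz n f := Finset.sum_nonneg fun _ _ => abs_nonneg _

theorem sz_add (n : ℕ) (f g : PowerSeries ℚ) : sz n (f + g) ≤ sz n f + sz n g := by
  unfold sz
  rw [← Finset.sum_add_distrib]
  apply Finset.sum_le_sum
  intro i _
  rw [map_add]
  exact abs_add_le _ _

theorem sz_neg (n : ℕ) (f : PowerSeries ℚ) : sz n (-f) = sz n f := by
  unfold sz
  apply Finset.sum_congr rfl
  intro i _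
  rw [map_neg, abs_neg]

theorem sz_zero (n : ℕ) : sz n 0 = 0 := by
  unfold sz
  apply Finset.sum_eq_zero
  intro i _
  rw [map_zero, abs_zero]

theorem sz_sum {σ : Type*} (n : ℕ) (S : Finset σ) (F : σ → PowerSeries ℚ) :
    sz n (∑ x ∈ S, F x) ≤ ∑ x ∈ S, sz n (F x) := by
  classical
  induction S using Finset.induction_on with
  | empty => simp [sz_zero]
  | insert a S ha ih =>
    rw [Finset.sum_insert ha, Finset.sum_insert ha]
    exact (sz_add _ _ _).trans (by linarith)

theorem sz_smul (n : ℕ) (c : ℚ) (f : PowerSeries ℚ) : sz n (c • f) = |c| * sz n f := by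
  unfold sz
  rw [Finset.mul_sum]
  apply Finset.sum_congr rfl
  intro i _
  rw [PowerSeries.coeff_smul, smul_eq_mul, abs_mul]

theorem sz_mul (n : ℕ) (f g : PowerSeries ℚ) : sz n (f * g) ≤ sz n f * sz n g := by
  unfold sz
  have h1 : ∑ k ∈ Finset.range (n + 1), |PowerSeries.coeff k (f * g)| ≤
      ∑ k ∈ Finset.range (n + 1), ∑ p ∈ antidiagonal k,
        |PowerSeries.coeff p.1 f| * |PowerSeries.coeff p.2 g| := by
    apply Finset.sum_le_sum
    intro k _
    rw [PowerSeries.coeff_mul]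
    refine (Finset.abs_sum_le_sum_abs _ _).trans (le_of_eq ?_)
    apply Finset.sum_congr rfl
    intro p _
    rw [abs_mul]
  refine h1.trans ?_
  rw [Finset.sum_mul_sum, ← Finset.sum_product', ← Finset.sum_biUnion]
  · apply Finset.sum_le_sum_of_subset_of_nonneg
    · rintro ⟨a, b⟩ hp
      simp only [Finset.mem_biUnion, Finset.mem_range, mem_antidiagonal] at hp
      obtain ⟨k, hk, hab⟩ := hp
      simp only [Finset.mem_product, Finset.mem_range]
      omega
    · intro p _ _
      positivity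
  · intro a _ b _ hab
    simp only [Function.onFun]
    rw [Finset.disjoint_left]
    intro p hp hp'
    rw [mem_antidiagonal] at hp hp'
    exact hab (hp.symm.trans hp')

theorem sz_one (n : ℕ) : sz n 1 = 1 := by
  unfold sz
  rw [Finset.sum_eq_single 0]
  · simp
  · intro b _ hb
    rw [PowerSeries.coeff_one, if_neg hb, abs_zero]
  · simp

theorem sz_pow (n : ℕ) (f : PowerSeries ℚ) (k : ℕ) : sz n (f ^ k) ≤ sz n f ^ k := by
  induction k with
  | zero => rw [pow_zero, pow_zero, sz_one]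
  | succ k ih =>
    rw [pow_succ, pow_succ]
    exact (sz_mul _ _ _).trans (mul_le_mul_of_nonneg_right ih (sz_nonneg _ _))

theorem sz_mono {n m : ℕ} (h : n ≤ m) (f : PowerSeries ℚ) : sz n f ≤ sz m f := by
  unfold sz
  apply Finset.sum_le_sum_of_subset_of_nonneg
  · intro i hi
    simp only [Finset.mem_range] at hi ⊢
    omega
  · intro i _ _
    exact abs_nonneg _

theorem sz_hs (n b : ℕ) (f : PowerSeries ℚ) : sz n (hs b f) ≤ 2 ^ (n + b) * sz (n + b) f := by
  unfold sz
  have h1 : ∑ i ∈ Finset.range (n + 1), |PowerSeries.coeff i (hs b f)| ≤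
      2 ^ (n + b) * ∑ i ∈ Finset.range (n + 1), |PowerSeries.coeff (i + b) f| := by
    rw [Finset.mul_sum]
    apply Finset.sum_le_sum
    intro i hi
    rw [Finset.mem_range] at hi
    rw [hs, PowerSeries.coeff_mk, abs_mul]
    apply mul_le_mul_of_nonneg_right _ (abs_nonneg _)
    rw [abs_of_nonneg (by positivity)]
    have h2 : (i + b).choose b ≤ 2 ^ (n + b) :=
      (Nat.choose_le_two_pow _ _).trans (Nat.pow_le_pow_right (by norm_num) (by omega))
    exact_mod_cast h2
  refine h1.trans ?_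
  apply mul_le_mul_of_nonneg_left _ (by positivity)
  rw [← Finset.sum_image (s := Finset.range (n + 1)) (g := fun i => i + b)
    (f := fun i => |PowerSeries.coeff i f|) (by intro a _ c _ h; simpa using h)]
  apply Finset.sum_le_sum_of_subset_of_nonneg
  · intro i hi
    simp only [Finset.mem_image, Finset.mem_range] at hi ⊢
    omega
  · intro i _ _
    exact abs_nonneg _

theorem nrm_eq (p : ℚ[X]) (n : ℕ) (h : p.natDegree ≤ n) :
    nrm p = ∑ i ∈ Finset.range (n + 1), |p.coeff i| := by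
  unfold nrm
  apply Finset.sum_subset
  · intro i hi
    rw [Finset.mem_range]
    have := Polynomial.le_natDegree_of_mem_supp i hi
    omega
  · intro i _ hi
    rw [Polynomial.notMem_support_iff.mp hi, abs_zero]

theorem sz_coe (p : ℚ[X]) (n : ℕ) (h : p.natDegree ≤ n) : sz n (p : PowerSeries ℚ) = nrm p := by
  rw [nrm_eq p n h, sz]
  apply Finset.sum_congr rfl
  intro i _
  rw [Polynomial.coeff_coe]

theorem sz_coe_le (p : ℚ[X]) (n : ℕ) : sz n (p : PowerSeries ℚ) ≤ nrm p := by
  rw [← sz_coe p (max n p.natDegree) (le_max_right _ _)]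
  exact sz_mono (le_max_left _ _) _

theorem nrm_nonneg (p : ℚ[X]) : 0 ≤ nrm p := Finset.sum_nonneg fun _ _ => abs_nonneg _

theorem nrm_mul (p q : ℚ[X]) : nrm (p * q) ≤ nrm p * nrm q := by
  rw [← sz_coe (p * q) _ le_rfl, Polynomial.coe_mul]
  refine (sz_mul _ _ _).trans ?_
  exact mul_le_mul (sz_coe_le _ _) (sz_coe_le _ _) (sz_nonneg _ _) (nrm_nonneg _)

theorem nrm_sum {σ : Type*} (S : Finset σ) (F : σ → ℚ[X]) : nrm (∑ x ∈ S, F x) ≤ ∑ x ∈ S, nrm (F x) := by
  rw [← sz_coe (∑ x ∈ S, F x) _ le_rfl]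
  have h1 : ((∑ x ∈ S, F x : ℚ[X]) : PowerSeries ℚ) = ∑ x ∈ S, ((F x : ℚ[X]) : PowerSeries ℚ) := by
    have := map_sum (Polynomial.coeToPowerSeries.ringHom (R := ℚ)) F S
    simpa only [Polynomial.coeToPowerSeries.ringHom_apply] using this
  rw [h1]
  exact (sz_sum _ _ _).trans (Finset.sum_le_sum fun x _ => sz_coe_le _ _)

theorem nrm_pow (p : ℚ[X]) (k : ℕ) : nrm (p ^ k) ≤ nrm p ^ k := by
  rw [← sz_coe (p ^ k) _ le_rfl, Polynomial.coe_pow]
  exact (sz_pow _ _ _).trans (pow_le_pow_left₀ (sz_nonneg _ _) (sz_coe_le _ _) _)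

theorem nrm_hasse (p : ℚ[X]) (a M : ℕ) (h : p.natDegree ≤ M) :
    nrm (hasseDeriv a p) ≤ 2 ^ M * nrm p := by
  have h0 : (hasseDeriv a p).natDegree ≤ M := (Polynomial.natDegree_hasseDeriv_le p a).trans (by omega)
  rw [nrm_eq _ M h0]
  have h1 : ∑ i ∈ Finset.range (M + 1), |(hasseDeriv a p).coeff i| ≤
      2 ^ M * ∑ i ∈ Finset.range (M + 1), |p.coeff (i + a)| := by
    rw [Finset.mul_sum]
    apply Finset.sum_le_sum
    intro i hi
    rw [Finset.mem_range] at hi
    rw [hasseDeriv_coeff, abs_mul]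
    by_cases hia : i + a ≤ M
    · apply mul_le_mul_of_nonneg_right _ (abs_nonneg _)
      rw [abs_of_nonneg (by positivity)]
      have h2 : (i + a).choose a ≤ 2 ^ M :=
        (Nat.choose_le_two_pow _ _).trans (Nat.pow_le_pow_right (by norm_num) hia)
      exact_mod_cast h2
    · rw [Polynomial.coeff_eq_zero_of_natDegree_lt (by omega)]
      simp
  refine h1.trans ?_
  apply mul_le_mul_of_nonneg_left _ (by positivity)
  rw [nrm_eq p (M + a) (by omega)]
  rw [← Finset.sum_image (s := Finset.range (M + 1)) (g := fun i => i + a)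
    (f := fun i => |p.coeff i|) (by intro a _ c _ h; simpa using h)]
  apply Finset.sum_le_sum_of_subset_of_nonneg
  · intro i hi
    simp only [Finset.mem_image, Finset.mem_range] at hi ⊢
    omega
  · intro i _ _
    exact abs_nonneg _

/-! ### Denominators -/

/-- `D f` has integral coefficients up to the order `n` -/
def isI (n : ℕ) (D : ℚ) (f : PowerSeries ℚ) : Prop :=
  ∀ i ≤ n, ∃ z : ℤ, D * PowerSeries.coeff i f = z

theorem isI_zero (n : ℕ) (D : ℚ) : isI n D 0 := fun i _ => ⟨0, by simp⟩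

theorem isI_add {n : ℕ} {D : ℚ} {f g : PowerSeries ℚ} (hf : isI n D f) (hg : isI n D g) :
    isI n D (f + g) := by
  intro i hi
  obtain ⟨a, ha⟩ := hf i hi
  obtain ⟨b, hb⟩ := hg i hi
  exact ⟨a + b, by rw [map_add, mul_add, ha, hb]; push_cast; rfl⟩

theorem isI_neg {n : ℕ} {D : ℚ} {f : PowerSeries ℚ} (hf : isI n D f) : isI n D (-f) := by
  intro i hi
  obtain ⟨a, ha⟩ := hf i hi
  exact ⟨-a, by rw [map_neg, mul_neg, ha]; push_cast; rfl⟩

theorem isI_sum {σ : Type*} {n : ℕ} {D : ℚ} (S : Finset σ) (F : σ → PowerSeries ℚ)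
    (h : ∀ x ∈ S, isI n D (F x)) : isI n D (∑ x ∈ S, F x) := by
  classical
  induction S using Finset.induction_on with
  | empty => rw [Finset.sum_empty]; exact isI_zero _ _
  | insert a S ha ih =>
    rw [Finset.sum_insert ha]
    exact isI_add (h _ (Finset.mem_insert_self _ _)) (ih fun x hx => h x (Finset.mem_insert_of_mem hx))

theorem isI_mul {n : ℕ} {D E : ℚ} {f g : PowerSeries ℚ} (hf : isI n D f) (hg : isI n E g) :
    isI n (D * E) (f * g) := by
  intro k hk
  have h1 : ∀ p ∈ antidiagonal k, ∃ z : ℤ,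
      (D * E) * (PowerSeries.coeff p.1 f * PowerSeries.coeff p.2 g) = z := by
    intro p hp
    rw [mem_antidiagonal] at hp
    obtain ⟨a, ha⟩ := hf p.1 (by omega)
    obtain ⟨b, hb⟩ := hg p.2 (by omega)
    refine ⟨a * b, ?_⟩
    push_cast
    rw [← ha, ← hb]
    ring
  rw [PowerSeries.coeff_mul, Finset.mul_sum]
  have h2 : ∀ S : Finset (ℕ × ℕ), (∀ p ∈ S, ∃ z : ℤ,
      (D * E) * (PowerSeries.coeff p.1 f * PowerSeries.coeff p.2 g) = z) →
      ∃ z : ℤ, ∑ p ∈ S, (D * E) * (PowerSeries.coeff p.1 f * PowerSeries.coeff p.2 g) = z := by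
    classical
    intro S
    induction S using Finset.induction_on with
    | empty => intro _; exact ⟨0, by simp⟩
    | insert a S ha ih =>
      intro h
      obtain ⟨z, hz⟩ := ih fun x hx => h x (Finset.mem_insert_of_mem hx)
      obtain ⟨w, hw⟩ := h a (Finset.mem_insert_self _ _)
      exact ⟨w + z, by rw [Finset.sum_insert ha, hw, hz]; push_cast; rfl⟩
  exact h2 _ h1

theorem isI_mul_left {n : ℕ} {D : ℚ} {f g : PowerSeries ℚ} (hf : isI n 1 f) (hg : isI n D g) :
    isI n D (f * g) := by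
  have := isI_mul hf hg
  rwa [one_mul] at this

theorem isI_one (n : ℕ) : isI n 1 1 := by
  intro i _
  rw [PowerSeries.coeff_one, one_mul]
  split_ifs
  · exact ⟨1, by norm_num⟩
  · exact ⟨0, by norm_num⟩

theorem isI_pow {n : ℕ} {f : PowerSeries ℚ} (hf : isI n 1 f) (k : ℕ) : isI n 1 (f ^ k) := by
  induction k with
  | zero => rw [pow_zero]; exact isI_one n
  | succ k ih => rw [pow_succ]; exact isI_mul_left ih hf

theorem isI_hs {n b : ℕ} {D : ℚ} {f : PowerSeries ℚ} (hf : isI (n + b) D f) : isI n D (hs b f) := by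
  intro i hi
  obtain ⟨z, hz⟩ := hf (i + b) (by omega)
  refine ⟨((i + b).choose b : ℤ) * z, ?_⟩
  rw [hs, PowerSeries.coeff_mk]
  push_cast
  rw [← hz]
  ring

theorem isI_mono {n m : ℕ} (h : n ≤ m) {D : ℚ} {f : PowerSeries ℚ} (hf : isI m D f) : isI n D f :=
  fun i hi => hf i (hi.trans h)

theorem isI_dvd {n : ℕ} {D : ℚ} {f : PowerSeries ℚ} (hf : isI n D f) (c : ℤ) : isI n (c * D) f := by
  intro i hi
  obtain ⟨z, hz⟩ := hf i hi
  exact ⟨c * z, by rw [mul_assoc, hz]; push_cast; rfl⟩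

theorem isI_zp (n : ℕ) (p : ℤ[X]) : isI n 1 (zp p) := by
  intro i _
  refine ⟨p.coeff i, ?_⟩
  rw [zp, Polynomial.coeff_coe, zq, Polynomial.coeff_map, one_mul]
  rfl

theorem isI_int (n : ℕ) (z : ℤ) : isI n 1 (z : PowerSeries ℚ) := by
  intro i _
  rw [intCast_eq, PowerSeries.coeff_C, one_mul]
  split_ifs
  · exact ⟨z, rfl⟩
  · exact ⟨0, by norm_num⟩

/-! ### Matrices -/

section mat
variable {d : Type*} [Fintype d] [DecidableEq d]

/-- the size of a matrix -/
noncomputable def msz (n : ℕ) (X : Matrix d d (PowerSeries ℚ)) : ℚ := ∑ i, ∑ j, sz n (X i j)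

theorem msz_nonneg (n : ℕ) (X : Matrix d d (PowerSeries ℚ)) : 0 ≤ msz n X :=
  Finset.sum_nonneg fun _ _ => Finset.sum_nonneg fun _ _ => sz_nonneg _ _

theorem msz_add (n : ℕ) (X Y : Matrix d d (PowerSeries ℚ)) : msz n (X + Y) ≤ msz n X + msz n Y := by
  unfold msz
  rw [← Finset.sum_add_distrib]
  apply Finset.sum_le_sum
  intro i _
  rw [← Finset.sum_add_distrib]
  apply Finset.sum_le_sum
  intro j _
  exact sz_add _ _ _

theorem msz_neg (n : ℕ) (X : Matrix d d (PowerSeries ℚ)) : msz n (-X) = msz n X := by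
  unfold msz
  simp only [Matrix.neg_apply, sz_neg]

theorem msz_sub (n : ℕ) (X Y : Matrix d d (PowerSeries ℚ)) : msz n (X - Y) ≤ msz n X + msz n Y := by
  rw [sub_eq_add_neg]
  refine (msz_add _ _ _).trans ?_
  rw [msz_neg]

theorem msz_zero (n : ℕ) : msz n (0 : Matrix d d (PowerSeries ℚ)) = 0 := by
  unfold msz
  simp [sz_zero]

theorem msz_sum {σ : Type*} (n : ℕ) (S : Finset σ) (F : σ → Matrix d d (PowerSeries ℚ)) :
    msz n (∑ x ∈ S, F x) ≤ ∑ x ∈ S, msz n (F x) := by
  classical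
  induction S using Finset.induction_on with
  | empty => simp [msz_zero]
  | insert a S ha ih =>
    rw [Finset.sum_insert ha, Finset.sum_insert ha]
    exact (msz_add _ _ _).trans (by linarith)

theorem msz_qsmul (n : ℕ) (c : ℚ) (X : Matrix d d (PowerSeries ℚ)) : msz n (c • X) = |c| * msz n X := by
  unfold msz
  rw [Finset.mul_sum]
  apply Finset.sum_congr rfl
  intro i _
  rw [Finset.mul_sum]
  apply Finset.sum_congr rfl
  intro j _
  rw [Matrix.smul_apply, sz_smul]

theorem msz_smul (n : ℕ) (f : PowerSeries ℚ) (X : Matrix d d (PowerSeries ℚ)) :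
    msz n (f • X) ≤ sz n f * msz n X := by
  unfold msz
  rw [Finset.mul_sum]
  apply Finset.sum_le_sum
  intro i _
  rw [Finset.mul_sum]
  apply Finset.sum_le_sum
  intro j _
  rw [Matrix.smul_apply, smul_eq_mul]
  exact sz_mul _ _ _

theorem msz_mul (n : ℕ) (X Y : Matrix d d (PowerSeries ℚ)) : msz n (X * Y) ≤ msz n X * msz n Y := by
  unfold msz
  have h1 : ∀ i j, sz n ((X * Y) i j) ≤ ∑ k, sz n (X i k) * sz n (Y k j) := by
    intro i j
    rw [Matrix.mul_apply]
    exact (sz_sum _ _ _).trans (Finset.sum_le_sum fun k _ => sz_mul _ _ _)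
  calc ∑ i, ∑ j, sz n ((X * Y) i j) ≤ ∑ i, ∑ j, ∑ k, sz n (X i k) * sz n (Y k j) :=
        Finset.sum_le_sum fun i _ => Finset.sum_le_sum fun j _ => h1 i j
    _ = ∑ i, ∑ k, sz n (X i k) * ∑ j, sz n (Y k j) := by
        apply Finset.sum_congr rfl
        intro i _
        rw [Finset.sum_comm]
        apply Finset.sum_congr rfl
        intro k _
        rw [Finset.mul_sum]
    _ ≤ ∑ i, ∑ k, sz n (X i k) * ∑ l, ∑ j, sz n (Y l j) := by
        apply Finset.sum_le_sum
        intro i _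
        apply Finset.sum_le_sum
        intro k _
        apply mul_le_mul_of_nonneg_left _ (sz_nonneg _ _)
        exact Finset.single_le_sum (f := fun l => ∑ j, sz n (Y l j))
          (fun l _ => Finset.sum_nonneg fun j _ => sz_nonneg _ _) (Finset.mem_univ k)
    _ = _ := by
        rw [Finset.sum_mul]
        apply Finset.sum_congr rfl
        intro i _
        rw [Finset.sum_mul]

theorem msz_hsM (n b : ℕ) (X : Matrix d d (PowerSeries ℚ)) :
    msz n (hsM b X) ≤ 2 ^ (n + b) * msz (n + b) X := by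
  unfold msz
  rw [Finset.mul_sum]
  apply Finset.sum_le_sum
  intro i _
  rw [Finset.mul_sum]
  apply Finset.sum_le_sum
  intro j _
  exact sz_hs _ _ _

/-- integrality of a matrix -/
def mI (n : ℕ) (D : ℚ) (X : Matrix d d (PowerSeries ℚ)) : Prop := ∀ i j, isI n D (X i j)

theorem mI_mul {n : ℕ} {D E : ℚ} {X Y : Matrix d d (PowerSeries ℚ)} (hX : mI n D X) (hY : mI n E Y) :
    mI n (D * E) (X * Y) := by
  intro i j
  rw [Matrix.mul_apply]
  exact isI_sum _ _ fun k _ => isI_mul (hX i k) (hY k j)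

theorem mI_smul {n : ℕ} {D : ℚ} {f : PowerSeries ℚ} {X : Matrix d d (PowerSeries ℚ)}
    (hf : isI n 1 f) (hX : mI n D X) : mI n D (f • X) := by
  intro i j
  exact isI_mul_left hf (hX i j)

theorem mI_hs {n b : ℕ} {D : ℚ} {X : Matrix d d (PowerSeries ℚ)} (hX : mI (n + b) D X) :
    mI n D (hsM b X) := fun i j => isI_hs (hX i j)

theorem mI_sum {σ : Type*} {n : ℕ} {D : ℚ} (S : Finset σ) (F : σ → Matrix d d (PowerSeries ℚ))
    (h : ∀ x ∈ S, mI n D (F x)) : mI n D (∑ x ∈ S, F x) := by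
  intro i j
  rw [Matrix.sum_apply]
  exact isI_sum _ _ fun x hx => h x hx i j

theorem mI_mono {n m : ℕ} (h : n ≤ m) {D : ℚ} {X : Matrix d d (PowerSeries ℚ)} (hX : mI m D X) :
    mI n D X := fun i j => isI_mono h (hX i j)

theorem mI_cm (n : ℕ) (N : Matrix d d ℤ) : mI n 1 (cm N) := fun i j => isI_int n (N i j)

/-- the additive group of the integral matrices -/
def grp (n : ℕ) (D : ℚ) : AddSubgroup (Matrix d d (PowerSeries ℚ)) where
  carrier := {X | mI n D X}
  zero_mem' := fun _ _ => isI_zero _ _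
  add_mem' := fun hX hY i j => isI_add (hX i j) (hY i j)
  neg_mem' := fun hX i j => isI_neg (hX i j)

end mat

end Pool.Agent.Helper39_MT
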