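import Pool.Agent.Helper39_MT.Gal2

/-! MT100, module GAL, part 3: the operators `binom(ad N, j)`. -/

set_option autoImplicit false
set_option linter.unusedSectionVars false

namespace Pool.Agent.Helper39_MT

open Matrix Polynomial Pool.Agent.MT100
open Finset.HasAntidiagonal (antidiagonal mem_antidiagonal)

/-! ### Binomials of a nilpotent operator -/

section nil
variable {V : Type*} [AddCommGroup V] [Module ℚ V] (A : Module.End ℚ V)

/-- the binomial operators -/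
noncomputable def Bi : ℕ → Module.End ℚ V
  | 0 => 1
  | j + 1 => ((j : ℚ) + 1)⁻¹ • ((A - (j : ℚ) • 1) * Bi j)

/-- the auxiliary products -/
noncomputable def Ej : ℕ → Module.End ℚ V
  | 0 => 1
  | j + 1 => (((j : ℚ) + 1)⁻¹ • A - 1) * Ej j

theorem Bi_succ (j : ℕ) : Bi A (j + 1) = (((j : ℚ) + 1)⁻¹ • A) * Ej A j := by
  induction j with
  | zero =>
    simp [Bi, Ej]
  | succ j ih =>
    rw [Bi, ih, Ej]
    have h1 : ((j : ℚ) + 1) ≠ 0 := by positivity
    have h2 : (A - (((j + 1 : ℕ) : ℚ)) • (1 : Module.End ℚ V)) * (((j : ℚ) + 1)⁻¹ • A) =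
        A * (((j : ℚ) + 1)⁻¹ • A - 1) := by
      push_cast
      rw [sub_mul, mul_sub, mul_one, smul_mul_assoc, one_mul, smul_smul, mul_inv_cancel₀ h1, one_smul]
    rw [← mul_assoc, h2, mul_assoc, smul_mul_assoc]

theorem Ej_aeval (L : ℕ) (T : ℕ) (hL : L ≠ 0) (hdvd : ∀ j, 1 ≤ j → j ≤ T → j ∣ L) :
    ∀ j ≤ T, ∃ f : ℤ[X], Ej A j = aeval ((L : ℚ)⁻¹ • A) f := by
  intro j
  induction j with
  | zero => intro _; exact ⟨1, by simp [Ej]⟩
  | succ j ih =>
    intro hj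
    obtain ⟨f, hf⟩ := ih (by omega)
    obtain ⟨m, hm⟩ := hdvd (j + 1) (by omega) hj
    refine ⟨((m : ℤ[X]) * X - 1) * f, ?_⟩
    rw [Ej, hf, map_mul, map_sub, map_mul, map_natCast, aeval_X, map_one]
    congr 2
    have h1 : ((j : ℚ) + 1) ≠ 0 := by positivity
    have h2 : (m : ℚ) ≠ 0 := by
      rintro h
      have : m = 0 := by exact_mod_cast h
      rw [this, mul_zero] at hm
      exact hL hm
    have h3 : (L : ℚ) = ((j : ℚ) + 1) * m := by rw [hm]; push_cast; ring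
    rw [h3, ← nsmul_eq_mul, ← Nat.cast_smul_eq_nsmul ℚ, smul_smul]
    congr 1
    field_simp

theorem Bi_aeval (L : ℕ) (T : ℕ) (hL : L ≠ 0) (hdvd : ∀ j, 1 ≤ j → j ≤ T → j ∣ L) :
    ∀ j ≤ T, ∃ f : ℤ[X], Bi A j = aeval ((L : ℚ)⁻¹ • A) f := by
  intro j hj
  rcases j with _ | j
  · exact ⟨1, by simp [Bi]⟩
  obtain ⟨f, hf⟩ := Ej_aeval A L T hL hdvd j (by omega)
  obtain ⟨m, hm⟩ := hdvd (j + 1) (by omega) hj
  refine ⟨((m : ℤ[X]) * X) * f, ?_⟩
  rw [Bi_succ, hf, map_mul, map_mul, map_natCast, aeval_X]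
  congr 1
  have h1 : ((j : ℚ) + 1) ≠ 0 := by positivity
  have h2 : (m : ℚ) ≠ 0 := by
    rintro h
    have : m = 0 := by exact_mod_cast h
    rw [this, mul_zero] at hm
    exact hL hm
  have h3 : (L : ℚ) = ((j : ℚ) + 1) * m := by rw [hm]; push_cast; ring
  rw [h3, ← nsmul_eq_mul, ← Nat.cast_smul_eq_nsmul ℚ, smul_smul]
  congr 1
  field_simp

theorem aeval_mem (ν : ℕ) (hA : A ^ ν = 0) (L : ℕ) (hL : L ≠ 0) (Λ : AddSubgroup V)
    (hΛ : ∀ x ∈ Λ, A x ∈ Λ) (f : ℤ[X]) {x : V} (hx : x ∈ Λ) :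
    ((L : ℚ) ^ ν) • (aeval ((L : ℚ)⁻¹ • A) f) x ∈ Λ := by
  have hpow : ∀ i, (A ^ i) x ∈ Λ := by
    intro i
    induction i with
    | zero => simpa using hx
    | succ i ih =>
      rw [pow_succ', Module.End.mul_apply]
      exact hΛ _ ih
  induction f using Polynomial.induction_on' with
  | add p q hp hq =>
    rw [map_add, LinearMap.add_apply, smul_add]
    exact Λ.add_mem hp hq
  | monomial i a =>
    rw [aeval_monomial, _root_.smul_pow, eq_intCast, ← zsmul_eq_mul, LinearMap.smul_apply, LinearMap.smul_apply]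
    by_cases hi : ν ≤ i
    · have : A ^ i = 0 := by
        obtain ⟨k, rfl⟩ := Nat.exists_eq_add_of_le hi
        rw [pow_add, hA, zero_mul]
      rw [this]
      simp
    · push Not at hi
      obtain ⟨k, rfl⟩ := Nat.exists_eq_add_of_lt hi
      have hLq : (L : ℚ) ≠ 0 := by exact_mod_cast hL
      have h1 : ((L : ℚ) ^ (i + k + 1)) • a • ((L : ℚ)⁻¹) ^ i • (A ^ i) x =
          (a * (L : ℤ) ^ (k + 1)) • (A ^ i) x := by
        rw [← Int.cast_smul_eq_zsmul ℚ a, ← Int.cast_smul_eq_zsmul ℚ (a * (L : ℤ) ^ (k + 1)), smul_smul,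
          smul_smul]
        congr 1
        push_cast
        rw [inv_pow]
        have : (L : ℚ) ^ (i + k + 1) = (L : ℚ) ^ i * (L : ℚ) ^ (k + 1) := by rw [← pow_add]; ring_nf
        rw [this]
        field_simp
      rw [h1]
      exact Λ.zsmul_mem (hpow i) _

end nil

/-! ### The commutator -/

section comm
variable {d : Type*} [Fintype d] [DecidableEq d]

/-- `X ↦ X N - N X` -/
noncomputable def adN (N : Matrix d d ℤ) : Module.End ℚ (Matrix d d (PowerSeries ℚ)) :=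
  LinearMap.mulRight ℚ (cm N) - LinearMap.mulLeft ℚ (cm N)

theorem adN_apply (N : Matrix d d ℤ) (X : Matrix d d (PowerSeries ℚ)) :
    adN N X = X * cm N - cm N * X := rfl

theorem adN_nil {N : Matrix d d ℤ} (hN : IsNilpotent N) : ∃ ν, adN N ^ ν = 0 := by
  have h0 : IsNilpotent (cm N) := by
    have : cm N = (Int.castRingHom (PowerSeries ℚ)).mapMatrix N := rfl
    rw [this]
    exact hN.map _
  have h1 : IsNilpotent (LinearMap.mulLeft ℚ (cm N)) := by
    obtain ⟨k, hk⟩ := h0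
    exact ⟨k, by rw [LinearMap.pow_mulLeft, hk, LinearMap.mulLeft_zero_eq_zero]⟩
  have h2 : IsNilpotent (LinearMap.mulRight ℚ (cm N)) := by
    obtain ⟨k, hk⟩ := h0
    exact ⟨k, by rw [LinearMap.pow_mulRight, hk, LinearMap.mulRight_zero_eq_zero]⟩
  exact Commute.isNilpotent_sub (LinearMap.commute_mulLeft_right (cm N) (cm N)).symm h2 h1

theorem Gq_eq (N : Matrix d d ℤ) (F : Matrix d d (PowerSeries ℚ)) (j : ℕ) :
    Gq N F j = Bi (adN N) j F := by
  induction j with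
  | zero => rfl
  | succ j ih =>
    rw [Gq, Bi, LinearMap.smul_apply, Module.End.mul_apply, LinearMap.sub_apply, LinearMap.smul_apply,
      Module.End.one_apply, ← ih, adN_apply]

theorem mI_adN {n : ℕ} {D : ℚ} (N : Matrix d d ℤ) {X : Matrix d d (PowerSeries ℚ)} (hX : mI n D X) :
    mI n D (adN N X) := by
  rw [adN_apply]
  have h1 : mI n D (X * cm N) := by
    have := mI_mul hX (mI_cm n N)
    rwa [mul_one] at this
  have h2 : mI n D (cm N * X) := by
    have := mI_mul (mI_cm n N) hX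
    rwa [one_mul] at this
  exact (grp n D).sub_mem h1 h2

/-- integrality of the `Gq` -/
theorem mI_Gq {n : ℕ} {D : ℚ} (N : Matrix d d ℤ) (ν : ℕ) (hν : adN N ^ ν = 0) (L T : ℕ) (hL : L ≠ 0)
    (hdvd : ∀ j, 1 ≤ j → j ≤ T → j ∣ L) {F : Matrix d d (PowerSeries ℚ)} (hF : mI n D F)
    {j : ℕ} (hj : j ≤ T) : mI n (D * (L : ℚ) ^ ν) (Gq N F j) := by
  obtain ⟨f, hf⟩ := Bi_aeval (adN N) L T hL hdvd j hj
  have h1 := aeval_mem (adN N) ν hν L hL (grp n D) (fun x hx => mI_adN N hx) f (x := F) hF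
  rw [← hf, ← Gq_eq] at h1
  intro a b i hi
  obtain ⟨z, hz⟩ := h1 a b i hi
  refine ⟨z, ?_⟩
  rw [Matrix.smul_apply, PowerSeries.coeff_smul, smul_eq_mul] at hz
  rw [mul_assoc, hz]

theorem msz_cm (n : ℕ) (N : Matrix d d ℤ) : msz n (cm N) = ∑ i, ∑ j, |((N i j : ℤ) : ℚ)| := by
  unfold msz
  apply Finset.sum_congr rfl
  intro i _
  apply Finset.sum_congr rfl
  intro j _
  show sz n ((N i j : ℤ) : PowerSeries ℚ) = _
  rw [intCast_eq]
  have : (PowerSeries.C ((N i j : ℤ) : ℚ) : PowerSeries ℚ) = ((N i j : ℤ) : ℚ) • 1 := by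
    rw [PowerSeries.smul_eq_C_mul, mul_one]
  rw [this, sz_smul, sz_one, mul_one]

/-- size of the `Gq` -/
theorem msz_Gq (n : ℕ) (N : Matrix d d ℤ) (F : Matrix d d (PowerSeries ℚ)) (j : ℕ) :
    msz n (Gq N F j) ≤ (2 * (∑ i, ∑ j, |((N i j : ℤ) : ℚ)|) + 1) ^ j * msz n F := by
  set ν := ∑ i, ∑ j, |((N i j : ℤ) : ℚ)| with hν
  have hν0 : 0 ≤ ν := Finset.sum_nonneg fun _ _ => Finset.sum_nonneg fun _ _ => abs_nonneg _
  induction j with
  | zero => simp [Gq]
  | succ j ih =>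
    rw [Gq, msz_qsmul]
    have h1 : msz n (Gq N F j * cm N - cm N * Gq N F j - (j : ℚ) • Gq N F j) ≤
        (2 * ν + j) * msz n (Gq N F j) := by
      refine (msz_sub _ _ _).trans ?_
      have a1 := msz_sub n (Gq N F j * cm N) (cm N * Gq N F j)
      have a2 := msz_mul n (Gq N F j) (cm N)
      have a3 := msz_mul n (cm N) (Gq N F j)
      rw [msz_cm, ← hν] at a2 a3
      rw [msz_qsmul, abs_of_nonneg (by positivity : (0 : ℚ) ≤ (j : ℚ))]
      nlinarith
    have h2 : |((j : ℚ) + 1)⁻¹| = ((j : ℚ) + 1)⁻¹ := abs_of_nonneg (by positivity)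
    rw [h2]
    have h3 : ((j : ℚ) + 1)⁻¹ * (2 * ν + j) ≤ 2 * ν + 1 := by
      rw [inv_mul_le_iff₀ (by positivity)]
      have : 0 ≤ (j : ℚ) * (2 * ν) := by positivity
      nlinarith
    generalize msz n (Gq N F j * cm N - cm N * Gq N F j - (j : ℚ) • Gq N F j) = w at h1 ⊢
    have h4 := msz_nonneg n (Gq N F j)
    generalize msz n (Gq N F j) = g at h1 ih h4
    generalize msz n F = e at ih ⊢
    have h5 : ((j : ℚ) + 1)⁻¹ * w ≤ ((j : ℚ) + 1)⁻¹ * ((2 * ν + j) * g) :=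
      mul_le_mul_of_nonneg_left h1 (by positivity)
    have h6 : (((j : ℚ) + 1)⁻¹ * (2 * ν + j)) * g ≤ (2 * ν + 1) * g := mul_le_mul_of_nonneg_right h3 h4
    have h7 : (2 * ν + 1) * g ≤ (2 * ν + 1) * ((2 * ν + 1) ^ j * e) :=
      mul_le_mul_of_nonneg_left ih (by linarith)
    calc ((j : ℚ) + 1)⁻¹ * w ≤ ((j : ℚ) + 1)⁻¹ * ((2 * ν + j) * g) := h5
      _ = (((j : ℚ) + 1)⁻¹ * (2 * ν + j)) * g := by rw [mul_assoc]
      _ ≤ (2 * ν + 1) * g := h6
      _ ≤ (2 * ν + 1) * ((2 * ν + 1) ^ j * e) := h7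
      _ = (2 * ν + 1) ^ (j + 1) * e := by rw [pow_succ']; ring

end comm

/-! ### The least common multiple -/

theorem lcm_bound : ∃ C : ℕ, 0 < C ∧ ∀ T : ℕ, Nat.lcmUpto T ≤ C ^ T := by
  obtain ⟨C, hC⟩ := exists_nat_gt (Real.exp (Real.log 4 + 4))
  refine ⟨C, ?_, ?_⟩
  · have : (0 : ℝ) < C := (Real.exp_pos _).trans hC
    exact_mod_cast this
  intro T
  have h1 := Chebyshev.psi_le_const_mul_self (x := (T : ℝ)) (by positivity)
  rw [Chebyshev.psi_eq_log_lcmUpto] at h1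
  have hpos : (0 : ℝ) < Nat.lcmUpto T := by exact_mod_cast Nat.lcmUpto_pos T
  have h2 : (Nat.lcmUpto T : ℝ) ≤ Real.exp ((Real.log 4 + 4) * T) := by
    rw [← Real.exp_log hpos]
    exact Real.exp_le_exp.mpr h1
  have h3 : Real.exp ((Real.log 4 + 4) * T) = Real.exp (Real.log 4 + 4) ^ T := by
    rw [mul_comm, Real.exp_nat_mul]
  have h4 : (Nat.lcmUpto T : ℝ) ≤ (C : ℝ) ^ T := by
    rw [h3] at h2
    exact h2.trans (pow_le_pow_left₀ (Real.exp_pos _).le hC.le _)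
  exact_mod_cast h4

theorem dvd_lcmUpto {j T : ℕ} (h1 : 1 ≤ j) (h2 : j ≤ T) : j ∣ Nat.lcmUpto T := by
  unfold Nat.lcmUpto
  exact Finset.dvd_lcm (f := id) (Finset.mem_Icc.mpr ⟨h1, h2⟩)

/-! ### Matrices of G-type series -/

theorem gm {d : Type*} [Fintype d] [DecidableEq d] {X : Matrix d d (PowerSeries ℚ)}
    (hX : ∀ i j, GType (X i j)) : ∃ C : ℕ, 0 < C ∧ ∀ m : ℕ, msz m X ≤ (C : ℚ) ^ (m + 1) ∧
      ∃ D : ℕ, 0 < D ∧ D ≤ C ^ (m + 1) ∧ mI m D X := by
  choose c hc0 hc using hX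
  set P : ℕ := ∏ i, ∏ j, c i j with hP
  have hP0 : 0 < P := Finset.prod_pos fun i _ => Finset.prod_pos fun j _ => hc0 i j
  have hdvd : ∀ i j, c i j ∣ P := fun i j =>
    (Finset.dvd_prod_of_mem (c i) (Finset.mem_univ j)).trans
      (Finset.dvd_prod_of_mem (fun i => ∏ j, c i j) (Finset.mem_univ i))
  have hle : ∀ i j, c i j ≤ P := fun i j => Nat.le_of_dvd hP0 (hdvd i j)
  refine ⟨(Fintype.card d ^ 2 + 1) * 2 * P, by positivity, fun m => ⟨?_, ?_⟩⟩
  · have h1 : ∀ i j, sz m (X i j) ≤ (2 * (P : ℚ)) ^ (m + 1) := by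
      intro i j
      have h2 : ∀ k ∈ Finset.range (m + 1), |PowerSeries.coeff k (X i j)| ≤ (P : ℚ) ^ (m + 1) := by
        intro k hk
        rw [Finset.mem_range] at hk
        refine ((hc i j k).1).trans ?_
        have h3 : (c i j) ^ (k + 1) ≤ P ^ (m + 1) :=
          (Nat.pow_le_pow_left (hle i j) _).trans (Nat.pow_le_pow_right hP0 (by omega))
        exact_mod_cast h3
      have h4 := Finset.sum_le_sum h2
      rw [Finset.sum_const, Finset.card_range, nsmul_eq_mul] at h4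
      refine h4.trans ?_
      rw [mul_pow]
      apply mul_le_mul_of_nonneg_right _ (by positivity)
      have : m + 1 ≤ 2 ^ (m + 1) := Nat.lt_two_pow_self.le
      exact_mod_cast this
    have h5 : msz m X ≤ ∑ _i : d, ∑ _j : d, (2 * (P : ℚ)) ^ (m + 1) :=
      Finset.sum_le_sum fun i _ => Finset.sum_le_sum fun j _ => h1 i j
    refine h5.trans ?_
    rw [Finset.sum_const, Finset.sum_const, Finset.card_univ, nsmul_eq_mul, nsmul_eq_mul, ← mul_assoc]
    push_cast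
    rw [show ((Fintype.card d : ℚ) ^ 2 + 1) * 2 * (P : ℚ) = ((Fintype.card d : ℚ) ^ 2 + 1) * (2 * P) by ring,
      mul_pow ((Fintype.card d : ℚ) ^ 2 + 1)]
    apply mul_le_mul_of_nonneg_right _ (by positivity)
    have h6 : (1 : ℚ) ≤ (Fintype.card d : ℚ) ^ 2 + 1 := by
      have : (0 : ℚ) ≤ (Fintype.card d : ℚ) ^ 2 := by positivity
      linarith
    calc (Fintype.card d : ℚ) * Fintype.card d ≤ ((Fintype.card d : ℚ) ^ 2 + 1) ^ 1 := by nlinarith
      _ ≤ _ := pow_le_pow_right₀ h6 (by omega)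
  · have h1 : ∀ i j, ∃ D : ℕ, 0 < D ∧ D ≤ c i j ^ (m + 1) ∧ ∀ k ≤ m, ∃ z : ℤ,
        (D : ℚ) * PowerSeries.coeff k (X i j) = z := fun i j => (hc i j m).2
    choose D hD0 hD1 hD2 using h1
    refine ⟨∏ i, ∏ j, D i j, Finset.prod_pos fun i _ => Finset.prod_pos fun j _ => hD0 i j, ?_, ?_⟩
    · calc ∏ i, ∏ j, D i j ≤ ∏ i, ∏ j, c i j ^ (m + 1) :=
            Finset.prod_le_prod' fun i _ => Finset.prod_le_prod' fun j _ => hD1 i j
        _ = P ^ (m + 1) := by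
            rw [hP]
            simp only [Finset.prod_pow]
        _ ≤ _ := Nat.pow_le_pow_left (by nlinarith [hP0, sq_nonneg (Fintype.card d)]) _
    · intro i j k hk
      obtain ⟨z, hz⟩ := hD2 i j k hk
      obtain ⟨e, he⟩ : D i j ∣ ∏ i, ∏ j, D i j :=
        (Finset.dvd_prod_of_mem (D i) (Finset.mem_univ j)).trans
          (Finset.dvd_prod_of_mem (fun i => ∏ j, D i j) (Finset.mem_univ i))
      refine ⟨e * z, ?_⟩
      rw [he]
      push_cast
      rw [← hz]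
      ring

end Pool.Agent.Helper39_MT
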